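import Pool.Agent.H88.S6F.Frm
import Pool.Agent.H86.S6C.Trv
import Pool.Agent.H75.S6C.Ths

/-!
# The zone of the local data: the room in the inequalities, and the falling case
-/

set_option autoImplicit false

namespace Pool.S6C

open Finset Real
open Pool.Agent.H49.Ent Pool.Agent.H32.Dense Pool.STK Pool.KA Pool.KSAT Pool.K2S Pool.PB Pool.KS6
  Pool.Sel51

/-- A positive number below finitely many. -/
theorem exists_room (l : List ℝ) (h : ∀ a ∈ l, 0 < a) : ∃ G : ℝ, 0 < G ∧ ∀ a ∈ l, G < a := by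
  induction l with
  | nil => exact ⟨1, one_pos, fun a ha => by simp at ha⟩
  | cons b l ih =>
    obtain ⟨G, hG, h1⟩ := ih fun a ha => h a (List.mem_cons_of_mem _ ha)
    have hb : 0 < b := h b List.mem_cons_self
    refine ⟨min (b / 2) G, lt_min (by linarith only [hb]) hG, fun a ha => ?_⟩
    rcases List.mem_cons.1 ha with h2 | h2
    · rw [h2]
      exact (min_le_left _ _).trans_lt (by linarith only [hb])
    · exact (min_le_right _ _).trans_lt (h1 a h2)

section loc

variable {S : PCl 3} {a R h₁ : ℝ} {i₀ : Fin 3} {c s₂ : ℝ} {r : ℝ → ℝ} {D : Set ℝ} {σ : ℝ → Row}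
  {act : ℚ → ℝ} {K : Set ℝ} {W : ℝ → ℝ} {v₁ t : ℚ} {e₁ Q₀ P g v₀ v ρ a₀ α : ℝ}

/-- The window is less than one. -/
theorem Loc.W1 (hL : Loc S i₀ c s₂ r D σ act K W v₁ t e₁ Q₀ P g v₀ v ρ a₀ α) :
    W g < 1 := (hL.adm.ab g hL.thk).trans (by exact_mod_cast hL.adm.v1)

/-- The direction number at the window is nonnegative, and positive if the slope is. -/
theorem Loc.v0_pos (hC : Cs S a R h₁ i₀ c s₂ r D σ)
    (hL : Loc S i₀ c s₂ r D σ act K W v₁ t e₁ Q₀ P g v₀ v ρ a₀ α) (hv : 0 < v) :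
    0 < v₀ := by
  by_contra hcon
  have hW1 := hL.W1
  have hR := hC.row 1 one_pos le_rfl hC.D1
  obtain ⟨δ, hδ, h1⟩ := hL.rot (v / 2) (by linarith only [hv])
  obtain ⟨q, q1, q2⟩ := exists_rat_btwn (show max (W g - δ) 0 < W g from
    max_lt (by linarith only [hδ]) hL.w0)
  have q3 : W g - δ < q := (le_max_left _ _).trans_lt q1
  have q4 : (0 : ℝ) < q := (le_max_right _ _).trans_lt q1
  have h2 := h1 q (by rw [abs_lt]; constructor <;> linarith)
  have h3 : 0 ≤ (σ 1).rot q := num_nonneg hC.ne (hR.rot q (by exact_mod_cast q4.le) (by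
    have : (q : ℝ) ≤ 1 := by linarith only [hW1, q2]
    exact_mod_cast this))
  have h4 : |(q : ℝ) - W g| = W g - q := by
    rw [abs_of_neg (by linarith only [q2])]
    ring
  rw [h4, abs_le] at h2
  nlinarith only [hcon, h2, h3, hv, q2, h2.2]

/-- The direction number at the window is at most the ones of larger windows. -/
theorem Loc.v0_le (hC : Cs S a R h₁ i₀ c s₂ r D σ)
    (hL : Loc S i₀ c s₂ r D σ act K W v₁ t e₁ Q₀ P g v₀ v ρ a₀ α) {w₁ : ℚ} (h : W g < w₁)
    (hw : w₁ ≤ 1) : v₀ ≤ (σ 1).rot w₁ := by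
  refine le_of_forall_pos_le_add fun e he => ?_
  obtain ⟨δ, hδ, h1⟩ := hL.rot 1 one_pos
  obtain ⟨q, q1, q2⟩ := exists_rat_btwn (show W g < min (min (W g + δ) (W g + e)) w₁ from
    lt_min (lt_min (by linarith only [hδ]) (by linarith only [he])) h)
  have q3 : (q : ℝ) < W g + δ := q2.trans_le ((min_le_left _ _).trans (min_le_left _ _))
  have q4 : (q : ℝ) < W g + e := q2.trans_le ((min_le_left _ _).trans (min_le_right _ _))
  have q5 : (q : ℝ) < w₁ := q2.trans_le (min_le_right _ _)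
  have q6 : (0 : ℝ) < q := hL.w0.trans q1
  have h2 := h1 q (by rw [abs_lt]; constructor <;> linarith)
  have h3 := rw_thm S a R h₁ i₀ c s₂ r D σ hC 1 one_pos le_rfl hC.D1 q w₁
    (by exact_mod_cast q6.le) (by exact_mod_cast q5.le) hw
  have h4 : |(q : ℝ) - W g| = q - W g := abs_of_pos (by linarith only [q1])
  rw [h4, abs_le] at h2
  have h5 : 0 ≤ v * ((q : ℝ) - W g) := mul_nonneg hL.v0 (by linarith only [q1])
  linarith only [q4, h2, h3, h5, h2.1]

/-- The planks are thicker than the trivial ones. -/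
theorem Loc.v0_lt (hC : Cs S a R h₁ i₀ c s₂ r D σ)
    (hL : Loc S i₀ c s₂ r D σ act K W v₁ t e₁ Q₀ P g v₀ v ρ a₀ α) (hne : v ≠ ρ) :
    v₀ < g - W g := by
  by_contra hcon
  rw [not_lt] at hcon
  have hW1 := hL.W1
  have hg1 : g < 1 := (hL.pr g hL.thk).lt1
  have hR := hC.row 1 one_pos le_rfl hC.D1
  have hd : 0 < |ρ - v| := abs_pos.2 fun h => hne (by linarith only [h])
  obtain ⟨δ₁, hδ₁, h1⟩ := hL.rot (|ρ - v| / 4) (by linarith only [hd])
  obtain ⟨δ₂, hδ₂, h2⟩ := hL.th (|ρ - v| / 4) (by linarith only [hd])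
  obtain ⟨C, hC0⟩ : ∃ C : ℝ, C = 1 + ρ + |ρ - v| := ⟨_, rfl⟩
  have hCp : 0 < C := by
    rw [hC0]
    have := hL.ρ0
    linarith
  obtain ⟨δ, hδ⟩ : ∃ δ : ℝ, δ = min (min δ₁ δ₂) (min (min (W g) (1 - W g)) ((1 - g) / C)) :=
    ⟨_, rfl⟩
  have hδ0 : 0 < δ := by
    rw [hδ]
    exact lt_min (lt_min hδ₁ hδ₂) (lt_min (lt_min hL.w0 (by linarith only [hW1]))
      (div_pos (by linarith only [hg1]) hCp))
  have d1 : δ ≤ δ₁ := by rw [hδ]; exact (min_le_left _ _).trans (min_le_left _ _)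
  have d2 : δ ≤ δ₂ := by rw [hδ]; exact (min_le_left _ _).trans (min_le_right _ _)
  have d3 : δ ≤ W g := by
    rw [hδ]
    exact (min_le_right _ _).trans ((min_le_left _ _).trans (min_le_left _ _))
  have d4 : δ ≤ 1 - W g := by
    rw [hδ]
    exact (min_le_right _ _).trans ((min_le_left _ _).trans (min_le_right _ _))
  have d5 : C * δ ≤ 1 - g := by
    have : δ ≤ (1 - g) / C := by
      rw [hδ]
      exact (min_le_right _ _).trans (min_le_right _ _)
    rw [le_div_iff₀ hCp] at this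
    linarith only [this]
  -- the inequality near the window
  have key : ∀ q : ℚ, |(q : ℝ) - W g| < δ → 0 ≤ (ρ - v) * ((q : ℝ) - W g) +
      |ρ - v| / 2 * |(q : ℝ) - W g| := by
    intro q hq
    have a1 := h1 q (hq.trans_le d1)
    have a2 := h2 q (hq.trans_le d2)
    have a3 := abs_lt.1 hq
    have q0 : (0 : ℝ) ≤ q := by linarith only [d3, a3]
    have q1 : (q : ℝ) ≤ 1 := by linarith only [d4, a3]
    have a4 := trv hC le_rfl hR q (by exact_mod_cast q0) q1
    rw [abs_le] at a1 a2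
    have a5 : (1 + ρ) * ((q : ℝ) - W g) + |ρ - v| / 4 * |(q : ℝ) - W g| < 1 - g := by
      have b1 : (1 + ρ) * ((q : ℝ) - W g) ≤ (1 + ρ) * |(q : ℝ) - W g| :=
        mul_le_mul_of_nonneg_left (le_abs_self _) (by have := hL.ρ0; linarith only [hW1, hδ0, d3, this])
      have b2 : (1 + ρ) * |(q : ℝ) - W g| + |ρ - v| / 4 * |(q : ℝ) - W g| ≤
          C * |(q : ℝ) - W g| := by
        rw [hC0]
        have := abs_nonneg ((q : ℝ) - W g)
        nlinarith only [a1]
      have b3 : C * |(q : ℝ) - W g| < C * δ := mul_lt_mul_of_pos_left hq hCp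
      linarith only [d5, b1, b2, b3]
    have a6 : (σ 1).th q < 1 := by linarith only [a2, a5, a2.2]
    have a7 : (q : ℝ) + (σ 1).rot q ≤ (σ 1).th q := by
      rcases min_le_iff.1 a4 with h | h
      · exact h
      · linarith only [a6, h]
    linarith only [hcon, a1, a2, a7, a1.1, a2.2]
  rcases lt_or_gt_of_ne hne with h | h
  · -- `v < ρ`: windows on the left
    obtain ⟨q, q1, q2⟩ := exists_rat_btwn (show W g - δ < W g by linarith only [hδ0])
    have h3 := key q (by rw [abs_lt]; constructor <;> linarith)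
    rw [abs_of_neg (show (q : ℝ) - W g < 0 by linarith only [q2]),
      abs_of_pos (show 0 < ρ - v by linarith only [h])] at h3
    nlinarith only [h3, h, q2]
  · obtain ⟨q, q1, q2⟩ := exists_rat_btwn (show W g < W g + δ by linarith)
    have h3 := key q (by rw [abs_lt]; constructor <;> linarith)
    rw [abs_of_pos (show 0 < (q : ℝ) - W g by linarith only [q1]),
      abs_of_neg (show ρ - v < 0 by linarith only [h])] at h3
    nlinarith only [h3, h, q1]

/-- **The room in the inequalities of the local data.** -/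
theorem Loc.room_all (hC : Cs S a R h₁ i₀ c s₂ r D σ)
    (hL : Loc S i₀ c s₂ r D σ act K W v₁ t e₁ Q₀ P g v₀ v ρ a₀ α) (hne : v ≠ ρ) :
    ∃ G₀ : ℝ, 0 < G₀ ∧ ∀ G : ℝ, G ≤ G₀ → (P - g) + v₀ + G < (σ 1).pi ∧ (P - g) + v₀ + G < 1 ∧
      P - W g + G < (σ 1).sN v₁ t ∧ P - W g + G < t - v₁ + e₁ ∧ P - g + G < e₁ ∧
      W g + G < v₁ ∧ P + G < 1 ∧ G < P - g ∧ G < W g ∧ (0 < v → G < v₀) ∧ G < g - W g - v₀ ∧
      v₀ + G < 1 := by
  obtain ⟨w₁, b1, b2, -, b3⟩ := hL.beta
  have hWP : W g ≤ W P := (hL.mono g hL.thk P hL.row hL.gP.le).1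
  have hw₁ : w₁ ≤ 1 := by
    have h1 := hL.adm.ab Q₀ hL.top
    have h2 : (v₁ : ℝ) < 1 := by exact_mod_cast hL.adm.v1
    have h3 : (w₁ : ℝ) ≤ 1 := by linarith only [b2, h1, h2]
    exact_mod_cast h3
  have h1 := hL.v0_le hC (by linarith only [b1, hWP]) hw₁
  have hpi : (σ 1).pi ≤ 1 := num_le_cap hC.ne zero_le_one (hC.row 1 one_pos le_rfl hC.D1).pi
  have h2 := hL.gP
  have h3 := hL.gam
  have h4 := hL.vel
  have h5 := hL.small
  have h6 := hL.adm.ab g hL.thk
  have h7 := (hL.pr P hL.row).lt1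
  have h8 := hL.w0
  have h9 := hL.v0_lt hC hne
  obtain ⟨G₀, hG₀, hall⟩ := exists_room [(σ 1).pi - ((P - g) + v₀),
    (σ 1).sN v₁ t - (P - W g), t - v₁ + e₁ - (P - W g), e₁ - (P - g), v₁ - W g, 1 - P, P - g,
    W g, (if 0 < v then v₀ else 1), g - W g - v₀] (by
    intro x hx
    simp only [List.mem_cons, List.not_mem_nil, or_false] at hx
    rcases hx with h | h | h | h | h | h | h | h | h | h
    · rw [h]; linarith only [b3, h1]
    · rw [h]; linarith only [h3]
    · rw [h]; linarith only [h4]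
    · rw [h]; linarith only [h5]
    · rw [h]; linarith only [h6]
    · rw [h]; linarith only [h7]
    · rw [h]; linarith only [h2]
    · rw [h]; linarith only [h8]
    · rw [h]
      split_ifs with h'
      · exact hL.v0_pos hC h'
      · exact one_pos
    · rw [h]; linarith only [h9])
  refine ⟨G₀, hG₀, fun G hG => ?_⟩
  simp only [List.mem_cons, List.not_mem_nil, or_false, forall_eq_or_imp, forall_eq] at hall
  obtain ⟨a1, a2, a3, a4, a5, a6, a7, a8, a9, a10⟩ := hall
  refine ⟨by linarith only [hG, a1], by linarith only [hG₀, hG, a6, a8, a10], by linarith, by linarith, by linarith, by linarith,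
    by linarith only [hG, a6], by linarith only [hG, a7], by linarith only [hG, a8], fun hv => ?_, by linarith only [hG, a10], by linarith only [hG₀, hG, a6, a7, a8, a10]⟩
  rw [if_pos hv] at a9
  linarith only [hG, a9]

/-- **The zone of the falling case.** -/
theorem zof_of_loc (hC : Cs S a R h₁ i₀ c s₂ r D σ)
    (hL : Loc S i₀ c s₂ r D σ act K W v₁ t e₁ Q₀ P g v₀ v ρ a₀ α) (hvρ : ρ < v) (hρ : 0 < ρ)
    {C ε : ℝ} (hC0 : 0 < C) (hε : 0 < ε) (hCε : 100 * ε ≤ C) : ∃ x₁ : ℝ, 0 < x₁ ∧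
      ∀ x : ℝ, 0 < x → x ≤ x₁ → Zof σ act v₁ t e₁ P g (W g) v₀ v ρ a₀ α (C * x) (ε * x)
        ((10 + 4 * v) * C * x) := by
  obtain ⟨G₀, hG₀, hroom⟩ := hL.room_all hC hvρ.ne'
  have hv0 : 0 < v := hρ.trans hvρ
  obtain ⟨δ₁, hδ₁, h1⟩ := hL.rot (ε / C) (by positivity)
  obtain ⟨δ₂, hδ₂, h2⟩ := hL.th (ε / C) (by positivity)
  obtain ⟨δ₃, hδ₃, h3⟩ := hL.aslp (ε / C) (by positivity)
  obtain ⟨x₁, hx₁, hall⟩ := exists_room [δ₁ / C, δ₂ / C, δ₃ / C, G₀ / ((10 + 4 * v) * C)] (by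
    intro x hx
    simp only [List.mem_cons, List.not_mem_nil, or_false] at hx
    rcases hx with h | h | h | h <;> · rw [h]; positivity)
  simp only [List.mem_cons, List.not_mem_nil, or_false, forall_eq_or_imp, forall_eq] at hall
  obtain ⟨b1, b2, b3, b4⟩ := hall
  rw [lt_div_iff₀ hC0] at b1 b2 b3
  rw [lt_div_iff₀ (by positivity)] at b4
  refine ⟨x₁, hx₁, fun x hx hxx => ?_⟩
  have hCx : C * x ≤ x₁ * C := by nlinarith only [hC0, hxx]
  have hG : (10 + 4 * v) * C * x ≤ G₀ := by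
    have : (10 + 4 * v) * C * x ≤ (10 + 4 * v) * C * x₁ :=
      mul_le_mul_of_nonneg_left hxx (by positivity)
    linarith only [b4, this]
  obtain ⟨r1, r2, r3, r4, r5, r6, r7, r8, r9, r10, r11, -⟩ := hroom _ hG
  have hsc : ∀ y : ℝ, |y| ≤ C * x → ε / C * |y| ≤ ε * x := by
    intro y hy
    calc ε / C * |y| ≤ ε / C * (C * x) := mul_le_mul_of_nonneg_left hy (by positivity)
      _ = ε * x := by field_simp
  exact
    { ρ0 := hρ
      vρ := hvρ
      α0 := hL.α0
      e0 := by positivity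
      eL := by nlinarith only [hCε, hx]
      LG := by nlinarith only
      aff := fun q hq => ⟨(h1 q (by linarith only [b1, hCx, hq])).trans (hsc _ hq), (h2 q (by linarith only [b2, hCx, hq])).trans (hsc _ hq)⟩
      act := fun q hq => (h3 q (by linarith only [b3, hCx, hq])).trans (hsc _ hq)
      g1 := r1
      g2 := r2
      g3 := r3
      g4 := r4
      g5 := r5
      g6 := r6
      g7 := r7
      g8 := r8
      g9 := r9
      g10 := r10 hv0
      g11 := r11 }

end loc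

end Pool.S6C
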