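import Pool.Agent.H77.S6C.UV2
import Pool.Agent.H23.S6E.Stmts

/-!
# Natural boxes are full: the inputs

`UVSStmt`: the strong form of the U-step. `NSumStmt`: the deficit at the window `v` is at most the
deficit at the window `x₁`, up to a small error. `NStartStmt`: the deficit at windows just above the
critical window of a Pliss row is small.
-/

set_option autoImplicit false

namespace Pool.S6V

open Finset Real
open Pool.Agent.H49.Ent Pool.Agent.H32.Dense Pool.STK Pool.KA Pool.KSAT Pool.K2S Pool.PB Pool.KS6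
  Pool.S6C Pool.S6U

/-- The deficit at the window `x` is at most `e J`, for all side labels of the windows `v` with a
plank of thickness `T`, and for all own slopes. -/
def VSm (S : PCl 3) (i₀ : Fin 3) (ρ : Row) (T p : ℝ) (v : ℚ) (q H : ℝ) (x : ℚ) (k e : ℝ) : Prop :=
  ∀ C : ℝ, 1 ≤ C → Clp S (fun J F A => ∀ ς : Fin 3 → Fin 3, Function.Injective ς → ς 0 = i₀ →
    ∀ (Λ : Type) (κ : F.Ω → Λ) (pl : Λ → Pln) (al : F.Ω → ℝ),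
    PkL F A ς ⌊(v : ℝ) * J⌋₊ ⌊(ρ.rot v - k) * J⌋₊ ⌊T * J⌋₊ C κ pl →
    NSt F A ς ⌊(T - v - k) * J⌋₊ ⌊(H - k) * J⌋₊ C κ pl →
    OwnS F A ς ⌊(ρ.pi - k) * J⌋₊ C al →
    Vd F A ς ρ p q k κ pl al x ≤ e * J)

/-- The same for all small precisions `k`. -/
def VSmall (S : PCl 3) (i₀ : Fin 3) (ρ : Row) (T p : ℝ) (v : ℚ) (q H : ℝ) (x : ℚ) (e : ℝ) : Prop :=
  ∃ k₀ : ℝ, 0 < k₀ ∧ ∀ k : ℝ, 0 < k → k ≤ k₀ → VSm S i₀ ρ T p v q H x k e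

/-- **(UVS)** The strong form of the U-step: for windows `v` between `w` and `w'` the rows beyond the
natural box (base velocity `0`) of the window `v` itself are full. -/
def UVSStmt : Prop :=
  ∀ (S : PCl 3) (a R h₁ : ℝ) (i₀ : Fin 3) (c s₂ : ℝ) (r : ℝ → ℝ) (D : Set ℝ) (σ : ℝ → Row),
    Cs S a R h₁ i₀ c s₂ r D σ → ∀ (act : ℚ → ℝ) (κ : ℝ), ActD S i₀ act κ →
    ∀ p : ℝ, 0 < p → p < 1 → ∀ w w' : ℚ, 0 < w → w < w' → (w' : ℝ) < 1 →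
    (w' : ℝ) + (σ 1).rot w' < p → (σ 1).rot w' < (σ 1).pi → p < (σ 1).th w → ∀ h : ℝ, 0 < h →
    ∃ v : ℚ, w < v ∧ v < w' ∧ VSmall S i₀ (σ 1) p p v 0 (p - v) v h

/-- **(NSUM)** The sum over the cells, for an active base velocity `q`. -/
def NSumStmt : Prop :=
  ∀ (S : PCl 3) (a R h₁ : ℝ) (i₀ : Fin 3) (c s₂ : ℝ) (r : ℝ → ℝ) (D : Set ℝ) (σ : ℝ → Row),
    Cs S a R h₁ i₀ c s₂ r D σ → ∀ (act : ℚ → ℝ) (κ : ℝ), ActD S i₀ act κ →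
    ∀ (T p : ℝ) (v : ℚ) (q H : ℝ), PV (σ 1) T p v q H → p - v < H → ∀ a₀ α : ℝ, AcP act q a₀ α →
    ∀ x₁ : ℚ, v < x₁ → (x₁ : ℝ) + q < p → (σ 1).rot x₁ + q < (σ 1).pi → ∀ h : ℝ, 0 < h →
      RFull S i₀ (σ 1) T p v q H v x₁ h

/-- **(NSTART)** If `p` is less than the Pliss row `Q`, the deficit is small at a window `x₁` above
the critical window `ws` of this row. -/
def NStartStmt : Prop :=
  ∀ (S : PCl 3) (a R h₁ : ℝ) (i₀ : Fin 3) (c s₂ : ℝ) (r : ℝ → ℝ) (D : Set ℝ) (σ : ℝ → Row),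
    Cs S a R h₁ i₀ c s₂ r D σ → ∀ (act : ℚ → ℝ) (κ : ℝ), ActD S i₀ act κ →
    ∀ Q ws : ℝ, PR c r D σ Q ws → ∀ (T p : ℝ) (v : ℚ) (q H : ℝ), PV (σ 1) T p v q H → p < Q →
    ∀ y₁ : ℚ, ws < y₁ → v < y₁ → (σ 1).rot y₁ < (σ 1).pi →
      (y₁ : ℝ) + (σ 1).rot y₁ + q ≤ p → ∀ h : ℝ, 0 < h →
      ∃ x₁ : ℚ, v < x₁ ∧ x₁ < y₁ ∧ VSmall S i₀ (σ 1) T p v q H x₁ h

end Pool.S6V
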