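import Pool.Agent.H36.S6.Act
import Pool.Agent.H77.S6C.UV2

/-!
# The activity of the local data

The activity numbers of the local data are the activity numbers of the class; near the active place
`P - g` all intervals of length `ε X` contain active places.
-/

set_option autoImplicit false

namespace Pool.S6V

open Finset Real
open Pool.Agent.H49.Ent Pool.Agent.H32.Dense Pool.STK Pool.KA Pool.KSAT Pool.K2S Pool.PB Pool.KS6
  Pool.S6C Pool.S6U Pool.Sel51

/-- The activity numbers are unique. -/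
theorem actN_unique {S S' : PCl 3} (hN : S'.Ne) (hLe : S'.Le S) {i₀ : Fin 3} {act act' : ℚ → ℝ}
    (hA : ActN S i₀ act) (hA' : ActN S' i₀ act') {q : ℚ} (h0 : 0 ≤ q) (h1 : q ≤ 1) :
    act q = act' q := by
  have hl2 : 0 < Real.log 2 := Real.log_pos (by norm_num)
  have hA2 := hA.le hLe
  refine le_antisymm ?_ ?_
  · refine num_lim hN fun e he => ⟨0, ?_⟩
    refine Clp.mono (J₂ := 0) ((hA2 q h0 h1 (e * Real.log 2 / 2) (by positivity)).and
      (hA' q h0 h1 (e * Real.log 2 / 2) (by positivity))) ?_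
    rintro J - F A ⟨a1, a2⟩
    rw [abs_le] at a1 a2
    have : act q * J * Real.log 2 ≤ (act' q * J + e * J) * Real.log 2 := by
      nlinarith [a1.1, a2.2]
    have := le_of_mul_le_mul_right this hl2
    linarith
  · refine num_lim hN fun e he => ⟨0, ?_⟩
    refine Clp.mono (J₂ := 0) ((hA2 q h0 h1 (e * Real.log 2 / 2) (by positivity)).and
      (hA' q h0 h1 (e * Real.log 2 / 2) (by positivity))) ?_
    rintro J - F A ⟨a1, a2⟩
    rw [abs_le] at a1 a2
    have : act' q * J * Real.log 2 ≤ (act q * J + e * J) * Real.log 2 := by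
      nlinarith [a1.2, a2.1]
    have := le_of_mul_le_mul_right this hl2
    linarith

/-- The activity numbers of a class satisfy all the hypotheses on the activity. -/
theorem actD_of_num {S : PCl 3} {a R h₁ : ℝ} {i₀ : Fin 3} {c s₂ : ℝ} {r : ℝ → ℝ} {D : Set ℝ}
    {σ : ℝ → Row} (hC : Cs S a R h₁ i₀ c s₂ r D σ) {act : ℚ → ℝ} (hA : ActN S i₀ act) :
    ∃ κ : ℝ, ActD S i₀ act κ := by
  obtain ⟨S', act', κ, h1, h2, h3, h4, h5, h6, q₀, h7, h8, h9⟩ :=
    act_stmt S a R h₁ i₀ c s₂ r D σ hC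
  have hu : ∀ q : ℚ, 0 ≤ q → q ≤ 1 → act q = act' q := fun q h0 h1' =>
    actN_unique h1.ne h1.le hA h2 h0 h1'
  refine ⟨κ, hA, ?_, ?_, ?_, h6, q₀, h7, h8, ?_⟩
  · rw [hu 0 le_rfl zero_le_one, h3]
  · intro q q' k1 k2 k3
    rw [hu q k1 (k2.trans k3), hu q' (k1.trans k2) k3]
    exact h4 q q' k1 k2 k3
  · intro q q' k1 k2 k3
    rw [hu q k1 (k2.trans k3), hu q' (k1.trans k2) k3]
    exact h5 q q' k1 k2 k3
  · intro q k1 k2
    rw [hu q k1 (k2.trans h8)]
    exact h9 q k1 k2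

/-- A function which increases between `q₀` and `q₁` has a positive slope somewhere between. -/
theorem exists_slp {f : ℚ → ℝ} (hf : ∀ q q' : ℚ, 0 ≤ q → q ≤ q' → q' ≤ 1 → f q ≤ f q')
    (hl : ∀ q q' : ℚ, 0 ≤ q → q ≤ q' → q' ≤ 1 → f q' - f q ≤ q' - q) {q₀ q₁ : ℚ} (h0 : 0 ≤ q₀)
    (h1 : q₁ ≤ 1) (hlt : f q₀ < f q₁) (h01 : q₀ < q₁) :
    ∃ x v s : ℝ, (q₀ : ℝ) < x ∧ x < q₁ ∧ 0 < s ∧ Slp f x v s := by
  obtain ⟨g, hg⟩ : ∃ g : ℚ → ℝ, g = fun q => max (f q) (f q₀) := ⟨_, rfl⟩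
  have hgm : ∀ q q' : ℚ, 0 ≤ q → q ≤ q' → q' ≤ 1 → g q ≤ g q' := by
    intro q q' k1 k2 k3
    rw [hg]
    exact max_le_max (hf q q' k1 k2 k3) le_rfl
  have hgl : ∀ q q' : ℚ, 0 ≤ q → q ≤ q' → q' ≤ 1 → g q' - g q ≤ q' - q := by
    intro q q' k1 k2 k3
    have e1 := hl q q' k1 k2 k3
    have e2 : (0 : ℝ) ≤ q' - q := by
      have : (q : ℝ) ≤ q' := by exact_mod_cast k2
      linarith
    rw [hg]
    have e3 : max (f q') (f q₀) ≤ max (f q) (f q₀) + ((q' : ℝ) - q) := by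
      refine max_le ?_ ?_
      · have := le_max_left (f q) (f q₀)
        linarith
      · have := le_max_right (f q) (f q₀)
        linarith
    beta_reduce
    linarith
  obtain ⟨A, hA, hA1, hA2⟩ := act_dens hgm hgl
  have k1 := hA2 q₁ (h0.trans_lt h01) h1
  have k2 : g q₁ = f q₁ := by
    rw [hg]
    exact max_eq_left hlt.le
  have k3 : g 0 = f q₀ := by
    rw [hg]
    exact max_eq_right (hf 0 q₀ le_rfl h0 (h01.le.trans h1))
  rw [k2, k3] at k1
  have hpos : 0 < MeasureTheory.volume (A ∩ Set.Ioo 0 (q₁ : ℝ)) :=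
    lt_of_lt_of_le (ENNReal.ofReal_pos.2 (by linarith)) k1
  -- not all points are at most `q₀`
  have hex : ∃ x ∈ A ∩ Set.Ioo 0 (q₁ : ℝ), (q₀ : ℝ) < x := by
    by_contra hcon
    push Not at hcon
    have hsub : A ∩ Set.Ioo 0 (q₁ : ℝ) ⊆ {(q₀ : ℝ)} := by
      intro x hx
      have hle := hcon x hx
      rcases hle.lt_or_eq with hlt' | heq
      · exfalso
        obtain ⟨hx0, hx1, v, s, hs, hsl⟩ := hA1 x hx.1
        -- the slope is zero below `q₀`
        have hz : Slp g x (f q₀) 0 := by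
          intro ε hε
          refine ⟨min x (q₀ - x), lt_min hx0 (by linarith), fun q hq => ?_⟩
          have hq1 := hq.trans_le (min_le_left _ _)
          have hq2 := hq.trans_le (min_le_right _ _)
          rw [abs_lt] at hq1 hq2
          have hqa : (0 : ℝ) ≤ q := by linarith [hq1.1]
          have hqb : (q : ℝ) ≤ q₀ := by linarith [hq2.2]
          have e1 : g q = f q₀ := by
            rw [hg]
            exact max_eq_right (hf q q₀ (by exact_mod_cast hqa) (by exact_mod_cast hqb)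
              (h01.le.trans h1))
          rw [e1]
          have : f q₀ - f q₀ - 0 * ((q : ℝ) - x) = 0 := by ring
          rw [this, abs_zero]
          positivity
        have := (Slp.unique hsl hz).2
        linarith
      · exact heq
    have hz : MeasureTheory.volume (A ∩ Set.Ioo 0 (q₁ : ℝ)) ≤ 0 :=
      (MeasureTheory.measure_mono hsub).trans (by simp)
    exact absurd hpos (not_lt.2 hz)
  obtain ⟨x, hx, hx0⟩ := hex
  obtain ⟨-, -, v, s, hs, hsl⟩ := hA1 x hx.1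
  refine ⟨x, v, s, hx0, hx.2.2, hs, fun ε hε => ?_⟩
  obtain ⟨δ, hδ, h2⟩ := hsl ε hε
  have hq1r : (q₁ : ℝ) ≤ 1 := by exact_mod_cast h1
  refine ⟨min δ (min (x - q₀) (q₁ - x)), lt_min hδ (lt_min (by linarith) (by linarith [hx.2.2])),
    fun q hq => ?_⟩
  have a1 := hq.trans_le (min_le_left _ _)
  have a2 := hq.trans_le ((min_le_right _ _).trans (min_le_left _ _))
  have a3 := hq.trans_le ((min_le_right _ _).trans (min_le_right _ _))
  rw [abs_lt] at a2 a3
  have b1 : (q₀ : ℝ) ≤ q := by linarith [a2.1]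
  have b2 : (q : ℝ) ≤ 1 := by linarith [a3.2]
  have e1 : g q = f q := by
    rw [hg]
    exact max_eq_left (hf q₀ q h0 (by exact_mod_cast b1) (by exact_mod_cast b2))
  have := h2 q a1
  rwa [e1] at this

/-- **Active places** are dense near an active place, on every scale. -/
theorem act_near {act : ℚ → ℝ} (hf : ∀ q q' : ℚ, 0 ≤ q → q ≤ q' → q' ≤ 1 → act q ≤ act q')
    (hl : ∀ q q' : ℚ, 0 ≤ q → q ≤ q' → q' ≤ 1 → act q' - act q ≤ q' - q) {x₀ a₀ α : ℝ}
    (hx0 : 0 < x₀) (hx1 : x₀ < 1) (hα : 0 < α) (hs : Slp act x₀ a₀ α) {ε : ℝ} (hε : 0 < ε) :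
    ∃ X₀ : ℝ, 0 < X₀ ∧ ∀ X : ℝ, 0 < X → X ≤ X₀ → ∀ q : ℝ, |q - x₀| ≤ X →
      ∃ q' a₀' α' : ℝ, q < q' ∧ q' < q + ε * X ∧ AcP act q' a₀' α' := by
  -- the precision of the slope
  obtain ⟨e, he⟩ : ∃ e, e = min ε 1 := ⟨_, rfl⟩
  have he0 : 0 < e := by
    rw [he]
    exact lt_min hε one_pos
  have he1 : e ≤ ε := by
    rw [he]
    exact min_le_left _ _
  have he2 : e ≤ 1 := by
    rw [he]
    exact min_le_right _ _
  obtain ⟨δ, hδ, h1⟩ := hs (α * e / 16) (by positivity)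
  refine ⟨min (δ / 4) (min (x₀ / 4) ((1 - x₀) / 4)), lt_min (by linarith)
    (lt_min (by linarith) (by linarith)), fun X hX hX1 q hq => ?_⟩
  have b1 := hX1.trans (min_le_left _ _)
  have b2 := hX1.trans ((min_le_right _ _).trans (min_le_left _ _))
  have b3 := hX1.trans ((min_le_right _ _).trans (min_le_right _ _))
  rw [abs_le] at hq
  have heX : e * X ≤ X := by nlinarith
  have heX0 : 0 < e * X := by positivity
  obtain ⟨q₀, c1, c2⟩ := exists_rat_btwn (show q < q + e * X / 4 by linarith)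
  obtain ⟨q₁, c3, c4⟩ := exists_rat_btwn (show q + 3 * (e * X) / 4 < q + e * X by linarith)
  have d0 : |(q₀ : ℝ) - x₀| ≤ 2 * X := by
    rw [abs_le]
    constructor <;> linarith [hq.1, hq.2]
  have d1 : |(q₁ : ℝ) - x₀| ≤ 2 * X := by
    rw [abs_le]
    constructor <;> linarith [hq.1, hq.2]
  have f0 := h1 q₀ (by linarith)
  have f1 := h1 q₁ (by linarith)
  have g0 : (0 : ℝ) < q₀ := by linarith [hq.1]
  have g1 : (q₁ : ℝ) < 1 := by linarith [hq.2]
  have g2 : (q₀ : ℝ) < q₁ := by linarith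
  have m0 : α * e / 16 * |(q₀ : ℝ) - x₀| ≤ α * e / 16 * (2 * X) :=
    mul_le_mul_of_nonneg_left d0 (by positivity)
  have m1 : α * e / 16 * |(q₁ : ℝ) - x₀| ≤ α * e / 16 * (2 * X) :=
    mul_le_mul_of_nonneg_left d1 (by positivity)
  have m2 : α * (e * X / 2) < α * ((q₁ : ℝ) - q₀) :=
    mul_lt_mul_of_pos_left (by linarith) hα
  have hlt : act q₀ < act q₁ := by
    rw [abs_le] at f0 f1
    have m3 : 0 < α * e * X := by positivity
    nlinarith [f0.2, f1.1]
  obtain ⟨x, v, s, k1, k2, k3, k4⟩ := exists_slp hf hl (q₀ := q₀) (q₁ := q₁)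
    (by exact_mod_cast g0.le) (by exact_mod_cast g1.le) hlt (by exact_mod_cast g2)
  have heX1 : e * X ≤ ε * X := mul_le_mul_of_nonneg_right he1 hX.le
  exact ⟨x, v, s, by linarith, by linarith, by linarith, by linarith, k3, k4⟩

end Pool.S6V
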