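import Pool.Agent.H86.S6C.Trv
import Pool.Agent.H51.S6.UvL
import Pool.Agent.H33.S6.NatDef

/-!
# Refining the direction of a plank

`tub_one`: labels of the windows which know the second coordinate along the fans to `w + l` digits.
`cmb z y`: the plank with the direction of `y` and the normal of `z`.
-/

set_option autoImplicit false

namespace Pool.S6V

open Finset Real
open Pool.Agent.H49.Ent Pool.Agent.H32.Dense Pool.STK Pool.KA Pool.KSAT Pool.K2S Pool.PB Pool.KS6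
  Pool.S6C Pool.S6U

/-- **Tube labels**, one family. -/
theorem tub_one {J : ℕ} (F : Fam 3 J) {i₀ iu iN : Fin 3}
    (hi : ∀ j : Fin 3, j = i₀ ∨ j = iu ∨ j = iN) {w l : ℕ} {A : F.Ω → Prop}
    (hA : 0 < Pe F.p A) {a n : (Fin 3 → ℤ) × (ℕ × F.ζ) → ℝ}
    {ζ : ((Fin 3 → ℝ) × (Fin 3 → ℝ)) × F.ζ × ℕ → ℝ}
    (h1 : ∀ ω, A ω → |F.d ω iu - a (ptq F J ω) * F.d ω i₀ - n (ptq F J ω)| ≤ 1 / 2 ^ l)
    (h2 : ∀ ω, A ω → |a (ptq F J ω) - ζ (slam F w ω)| ≤ 1 / 2 ^ l)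
    (h3 : ∀ ω, A ω → |a (ptq F J ω)| ≤ 2) (hw : w + l ≤ J) :
    ∃ B : F.Ω → Prop, Sub B A ∧
      Real.exp (-(8 * (3 * Real.log 15 + 6 * Real.log (16 * 10 + 21)))) / 2 * Pe F.p A ≤
        Pe F.p B ∧ LABq F J i₀ iu iN w l 0 2 B := by
  classical
  obtain ⟨n1, n2, n3⟩ := three hi
  obtain ⟨Φ, hΦ⟩ : ∃ Φ : (Fin 3 → ℤ) × (ℕ × F.ζ) → Pln, Φ = fun u =>
      { e := a u, c := 0, s := 0,
        xb := fun i => (u.1 i : ℝ) / 2 ^ J - (u.2.1 : ℝ) / 2 ^ J *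
          (if i = iu then n u else 0)
        db := fun i => if i = iu then n u else 0 } := ⟨_, rfl⟩
  obtain ⟨y, hy⟩ : ∃ y : F.Ω → Pln, y = fun ω => Φ (ptq F J ω) := ⟨_, rfl⟩
  have i3 : (1 : ℝ) / 2 ^ J ≤ 1 / 2 ^ w := inv_mono (by omega)
  have i2 : (1 : ℝ) / 2 ^ J ≤ 1 / 2 ^ (w + l) := inv_mono hw
  have hI : ∀ ω, A ω → Inc i₀ iu iN w l 0 10 (y ω) (F.t ω) (F.x ω) (F.d ω) := by
    intro ω hω
    obtain ⟨u, hu⟩ : ∃ u, u = ptq F J ω := ⟨_, rfl⟩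
    have hyu : y ω = Φ u := by rw [hy, hu]
    have hx : ∀ i, |F.x ω i - (u.1 i : ℝ) / 2 ^ J| ≤ 1 / 2 ^ J := by
      intro i
      rw [hu]
      exact floor_near J (F.x ω i)
    have hmv : ∀ i, (Φ u).xb i + F.t ω * (Φ u).db i = (u.1 i : ℝ) / 2 ^ J := by
      intro i
      rw [hΦ, hu]
      change (_ : ℝ) - (F.T ω : ℝ) / 2 ^ J * _ + (F.T ω : ℝ) / 2 ^ J * _ = _
      ring
    have hmv' : (fun i => (Φ u).xb i + F.t ω * (Φ u).db i) = fun i => (u.1 i : ℝ) / 2 ^ J :=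
      funext hmv
    have he := h3 ω hω
    have hon := h1 ω hω
    rw [← hu] at he hon
    have hx0 := hx i₀
    have hxu := hx iu
    have hxN := hx iN
    have ee : (Φ u).e = a u := by rw [hΦ]
    have ec : (Φ u).c = 0 := by rw [hΦ]
    have es : (Φ u).s = 0 := by rw [hΦ]
    have edb : ∀ i, (Φ u).db i = if i = iu then n u else 0 := fun i => by rw [hΦ]
    rw [hyu]
    refine ⟨?_, ?_, ?_, ?_, ?_, ?_, ?_, ?_, ?_⟩
    · rw [ee]; exact he
    · rw [ec, abs_zero]; norm_num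
    · rw [es, abs_zero]; norm_num
    · rw [hmv]
      refine hx0.trans (i3.trans ?_)
      exact div_le_div_of_nonneg_right (by norm_num) (by positivity)
    · rw [hmv', ee]
      have e1 : fu i₀ iu (a u) (F.x ω) - fu i₀ iu (a u) (fun i => (u.1 i : ℝ) / 2 ^ J) =
          (F.x ω iu - (u.1 iu : ℝ) / 2 ^ J) - a u * (F.x ω i₀ - (u.1 i₀ : ℝ) / 2 ^ J) := by
        unfold fu
        ring
      rw [e1]
      have e2 : |a u * (F.x ω i₀ - (u.1 i₀ : ℝ) / 2 ^ J)| ≤ 2 * (1 / 2 ^ J) := by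
        rw [abs_mul]
        exact mul_le_mul he hx0 (abs_nonneg _) (by norm_num)
      refine (abs_sub _ _).trans ?_
      have e3 : (10 : ℝ) / 2 ^ (w + l) = 10 * (1 / 2 ^ (w + l)) := by ring
      rw [e3]
      have : (0 : ℝ) < 1 / 2 ^ (w + l) := by positivity
      linarith
    · rw [hmv', ec, es]
      have e1 : fn i₀ iu iN 0 0 (F.x ω) - fn i₀ iu iN 0 0 (fun i => (u.1 i : ℝ) / 2 ^ J) =
          F.x ω iN - (u.1 iN : ℝ) / 2 ^ J := by
        unfold fn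
        ring
      rw [e1]
      refine hxN.trans ?_
      have : (1 : ℝ) / 2 ^ J ≤ 1 := by
        rw [div_le_one (by positivity)]
        exact one_le_pow₀ (by norm_num)
      simp only [pow_zero, div_one]
      linarith
    · rw [edb, if_neg (Ne.symm n1), sub_zero]
      exact (F.dir ω i₀).trans (by norm_num)
    · rw [ee]
      have e1 : fu i₀ iu (a u) (F.d ω) - fu i₀ iu (a u) (Φ u).db =
          F.d ω iu - a u * F.d ω i₀ - n u := by
        unfold fu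
        rw [edb, edb, if_neg (Ne.symm n1), if_pos rfl]
        ring
      rw [e1]
      refine hon.trans ?_
      exact div_le_div_of_nonneg_right (by norm_num) (by positivity)
    · rw [ec, es]
      have e1 : fn i₀ iu iN 0 0 (F.d ω) - fn i₀ iu iN 0 0 (Φ u).db = F.d ω iN := by
        unfold fn
        rw [edb iN, if_neg n3]
        ring
      rw [e1]
      have h5 := F.dir ω iN
      have h6 : (1 : ℝ) ≤ 2 ^ w := one_le_pow₀ (by norm_num)
      simp only [pow_zero, div_one]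
      linarith
  obtain ⟨Z, hZ⟩ : ∃ Z : ((Fin 3 → ℝ) × (Fin 3 → ℝ)) × F.ζ × ℕ → Pln, Z = fun v =>
      { e := ζ v, c := 0, s := 0, xb := fun _ => 0, db := fun _ => 0 } := ⟨_, rfl⟩
  have hr : ∀ ω, A ω → |(y ω).e - (Z (slam F w ω)).e| ≤ 1 / 2 ^ l ∧
      |(y ω).s - (Z (slam F w ω)).s| ≤ 1 / 2 ^ 0 ∧
      |Ae (y ω).c (y ω).s (Z (slam F w ω)).c (Z (slam F w ω)).s (Z (slam F w ω)).e| ≤
        1 / 2 ^ 0 := by
    intro ω hω
    have ee : (y ω).e = a (ptq F J ω) := by rw [hy, hΦ]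
    have ec : (y ω).c = 0 := by rw [hy, hΦ]
    have es : (y ω).s = 0 := by rw [hy, hΦ]
    have ze : (Z (slam F w ω)).e = ζ (slam F w ω) := by rw [hZ]
    have zc : (Z (slam F w ω)).c = 0 := by rw [hZ]
    have zs : (Z (slam F w ω)).s = 0 := by rw [hZ]
    refine ⟨?_, ?_, ?_⟩
    · rw [ee, ze]
      exact h2 ω hω
    · rw [es, zs, sub_self, abs_zero]
      positivity
    · rw [ec, es, zc, zs]
      unfold Ae
      simp
  exact lab_prod F le_rfl hi (C := 10) (by norm_num) hA hI (φ := Φ) (fun ω _ => by rw [hy]) hr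
    le_rfl hw (by omega) (by omega) (by omega) (Nat.zero_le _)

/-- The plank with the direction of `y` and the normal of `z`. -/
noncomputable def cmb (i₀ iu iN : Fin 3) (z y : Pln) : Pln where
  e := y.e
  c := z.c
  s := z.s
  xb := fun i => if i = i₀ then z.xb i₀ else
    if i = iu then y.xb iu - y.e * (y.xb i₀ - z.xb i₀) else
      z.xb iN + z.s * (z.xb iu - (y.xb iu - y.e * (y.xb i₀ - z.xb i₀)))
  db := fun i => if i = i₀ then z.db i₀ else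
    if i = iu then y.db iu - y.e * (y.db i₀ - z.db i₀) else
      z.db iN + z.s * (z.db iu - (y.db iu - y.e * (y.db i₀ - z.db i₀)))

theorem inc_cmb {i₀ iu iN : Fin 3} (h1 : iu ≠ i₀) (h2 : iN ≠ i₀) (h3 : iN ≠ iu) {w lam P lz Py : ℕ}
    {C C' : ℝ} {z y : Pln} {t : ℝ} {x d : Fin 3 → ℝ} (hz : Inc i₀ iu iN w lz P C z t x d)
    (hy : Inc i₀ iu iN w lam Py C y t x d) (hC : C ≤ C') :
    Inc i₀ iu iN w lam P C' (cmb i₀ iu iN z y) t x d := by
  have x0 : (cmb i₀ iu iN z y).xb i₀ = z.xb i₀ := by simp [cmb]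
  have d0 : (cmb i₀ iu iN z y).db i₀ = z.db i₀ := by simp [cmb]
  have xu : (cmb i₀ iu iN z y).xb iu = y.xb iu - y.e * (y.xb i₀ - z.xb i₀) := by
    simp [cmb, h1]
  have du : (cmb i₀ iu iN z y).db iu = y.db iu - y.e * (y.db i₀ - z.db i₀) := by
    simp [cmb, h1]
  have xN : (cmb i₀ iu iN z y).xb iN =
      z.xb iN + z.s * (z.xb iu - (y.xb iu - y.e * (y.xb i₀ - z.xb i₀))) := by
    simp [cmb, h2, h3]
  have dN : (cmb i₀ iu iN z y).db iN =
      z.db iN + z.s * (z.db iu - (y.db iu - y.e * (y.db i₀ - z.db i₀))) := by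
    simp [cmb, h2, h3]
  have ee : (cmb i₀ iu iN z y).e = y.e := rfl
  have ec : (cmb i₀ iu iN z y).c = z.c := rfl
  have es : (cmb i₀ iu iN z y).s = z.s := rfl
  refine inc_monoC ⟨?_, ?_, ?_, ?_, ?_, ?_, ?_, ?_, ?_⟩ hC
  · rw [ee]; exact hy.e_le
  · rw [ec]; exact hz.c_le
  · rw [es]; exact hz.s_le
  · rw [x0, d0]; exact hz.pe
  · have e1 : fu i₀ iu (cmb i₀ iu iN z y).e
        (fun i => (cmb i₀ iu iN z y).xb i + t * (cmb i₀ iu iN z y).db i) =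
        fu i₀ iu y.e (fun i => y.xb i + t * y.db i) := by
      unfold fu
      beta_reduce
      rw [ee, x0, d0, xu, du]
      ring
    rw [e1, ee]
    exact hy.pu
  · have e1 : fn i₀ iu iN (cmb i₀ iu iN z y).c (cmb i₀ iu iN z y).s
        (fun i => (cmb i₀ iu iN z y).xb i + t * (cmb i₀ iu iN z y).db i) =
        fn i₀ iu iN z.c z.s (fun i => z.xb i + t * z.db i) := by
      unfold fn
      beta_reduce
      rw [ec, es, x0, d0, xu, du, xN, dN]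
      ring
    rw [e1, ec, es]
    exact hz.pn
  · rw [d0]; exact hz.ve
  · have e1 : fu i₀ iu (cmb i₀ iu iN z y).e (cmb i₀ iu iN z y).db = fu i₀ iu y.e y.db := by
      unfold fu
      rw [ee, d0, du]
      ring
    rw [e1, ee]
    exact hy.vu
  · have e1 : fn i₀ iu iN (cmb i₀ iu iN z y).c (cmb i₀ iu iN z y).s (cmb i₀ iu iN z y).db =
        fn i₀ iu iN z.c z.s z.db := by
      unfold fn
      rw [ec, es, d0, du, dN]
      ring
    rw [e1, ec, es]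
    exact hz.vn

/-- The slopes of two frames are close if the fans are spread. -/
theorem slope_near {J : ℕ} {F : Fam 3 J} {B : F.Ω → Prop} {i₀ : Fin 3} {q : ℕ}
    {a a' : F.Ω → ℝ} {n n' : F.Ω → ℝ} {E : ℝ}
    (hs : ∀ ω, B ω → ∃ ω' ω'', B ω' ∧ B ω'' ∧ Fam.pt F ω' = Fam.pt F ω ∧
      Fam.pt F ω'' = Fam.pt F ω ∧ 1 / 2 ^ (q + 1) ≤ |F.d ω' i₀ - F.d ω'' i₀|)
    (ha : ∀ ω ω', B ω → B ω' → Fam.pt F ω = Fam.pt F ω' → a ω = a ω')
    (ha' : ∀ ω ω', B ω → B ω' → Fam.pt F ω = Fam.pt F ω' → a' ω = a' ω')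
    (hn : ∀ ω ω', B ω → B ω' → Fam.pt F ω = Fam.pt F ω' → n ω = n ω')
    (hn' : ∀ ω ω', B ω → B ω' → Fam.pt F ω = Fam.pt F ω' → n' ω = n' ω')
    (h : ∀ ω, B ω → |(a ω - a' ω) * F.d ω i₀ + (n ω - n' ω)| ≤ E) :
    ∀ ω, B ω → |a ω - a' ω| ≤ 2 * E * 2 ^ (q + 1) := by
  intro ω hω
  obtain ⟨ω', ω'', b1, b2, b3, b4, b5⟩ := hs ω hω
  have k1 := h ω' b1
  have k2 := h ω'' b2
  rw [ha ω' ω b1 hω b3, ha' ω' ω b1 hω b3, hn ω' ω b1 hω b3, hn' ω' ω b1 hω b3] at k1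
  rw [ha ω'' ω b2 hω b4, ha' ω'' ω b2 hω b4, hn ω'' ω b2 hω b4, hn' ω'' ω b2 hω b4] at k2
  have e1 : (a ω - a' ω) * (F.d ω' i₀ - F.d ω'' i₀) =
      ((a ω - a' ω) * F.d ω' i₀ + (n ω - n' ω)) -
        ((a ω - a' ω) * F.d ω'' i₀ + (n ω - n' ω)) := by ring
  have e2 : |a ω - a' ω| * |F.d ω' i₀ - F.d ω'' i₀| ≤ 2 * E := by
    rw [← abs_mul, e1]
    refine (abs_sub _ _).trans ?_
    linarith
  have e3 : |a ω - a' ω| * (1 / 2 ^ (q + 1)) ≤ 2 * E :=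
    (mul_le_mul_of_nonneg_left b5 (abs_nonneg _)).trans e2
  have hp : (0 : ℝ) < 2 ^ (q + 1) := by positivity
  rw [mul_one_div, div_le_iff₀ hp] at e3
  exact e3

end Pool.S6V
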