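import Pool.Agent.H33.S6.NatB
import Pool.Agent.H75.S6C.SNB
import Pool.Agent.H40.S6.Ev
import Pool.Agent.H62.S6.Cmp

/-!
# Fine side labels on a large part of every large event

For a natural label `z` of the windows `w`, on a large part of every large event there are a fine
tube label `y` of the same windows, own slopes, and the fans are straight in the direction of the
normals of `z`.
-/

set_option autoImplicit false

namespace Pool.S6V

open Finset Real
open Pool.Agent.H49.Ent Pool.Agent.H32.Dense Pool.STK Pool.KA Pool.KSAT Pool.K2S Pool.PB Pool.KS6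
  Pool.S6C Pool.S6U

/-- A function on an event which factors through another one. -/
theorem fn_of {Ω α β : Type} [Nonempty β] {A : Ω → Prop} {f : Ω → α} {z : Ω → β}
    (h : ∀ ω ω', A ω → A ω' → f ω = f ω' → z ω = z ω') : ∃ φ : α → β, ∀ ω, A ω → z ω = φ (f ω) := by
  classical
  refine ⟨fun u => if hu : ∃ ω, A ω ∧ f ω = u then z hu.choose else Classical.arbitrary β,
    fun ω hω => ?_⟩
  have hu : ∃ ω', A ω' ∧ f ω' = f ω := ⟨ω, hω, rfl⟩
  simp only [dif_pos hu]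
  exact (h _ _ hu.choose_spec.1 hω hu.choose_spec.2).symm

theorem nat_part {S : PCl 3} {a R h₁ : ℝ} {i₀ : Fin 3} {c s₂ : ℝ} {r : ℝ → ℝ} {D : Set ℝ}
    {σ : ℝ → Row} (hC : Cs S a R h₁ i₀ c s₂ r D σ) {K : Set ℝ} {W : ℝ → ℝ} {v₁ t : ℚ} {e₁ : ℝ}
    (hAd : Adm σ K W v₁ t e₁) {w : ℚ} (hw0 : 0 ≤ w) (hwv : w ≤ v₁) {T H k ρ θ : ℝ}
    (hk : 0 < k) (hkp : k ≤ (σ 1).pi) (hρ : 0 ≤ ρ) (hwr : (w : ℝ) + (σ 1).rot w ≤ 1)
    (hkT : 2 * k ≤ T - w) (hT1 : T - w ≤ t - v₁ + e₁) (hH1 : H < (σ 1).sN v₁ t)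
    (hH2 : H < T - w + ((σ 1).pi - (σ 1).rot v₁) - e₁) (hTH : T - w ≤ H) (hθ : 0 < θ) :
    ∃ c₀ : ℝ, 0 < c₀ ∧ Clp S (fun J F A => ∀ G : F.Ω → Prop, Sub G A →
      θ * Pe F.p A ≤ Pe F.p G → ∀ sg : Fin 3 → Fin 3, Function.Injective sg → sg 0 = i₀ →
      ∀ z : F.Ω → Pln, NL F G sg ⌊(w : ℝ) * J⌋₊ ⌊((σ 1).rot w - ρ) * J⌋₊ ⌊T * J⌋₊ z →
      ∃ B : F.Ω → Prop, Sub B G ∧ c₀ * Pe F.p A ≤ Pe F.p B ∧ ∃ (y : F.Ω → Pln) (al : F.Ω → ℝ),
        PkL F B sg ⌊(w : ℝ) * J⌋₊ ⌊((σ 1).rot w - k) * J⌋₊ 0 2 y id ∧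
        OwnS F B sg ⌊((σ 1).pi - k) * J⌋₊ 2 al ∧
        (∀ ω, B ω → |(z ω).e - al ω| ≤ 4 / 2 ^ ⌊((σ 1).rot w - ρ - k) * J⌋₊) ∧
        NSt F B sg ⌊(T - w - k) * J⌋₊ ⌊(H - k) * J⌋₊ 2 z id) := by
  classical
  have hR1 := hC.row 1 one_pos le_rfl hC.D1
  have hpi0 : 0 < (σ 1).pi := hk.trans_le hkp
  have hw0r : (0 : ℝ) ≤ w := by exact_mod_cast hw0
  have hw1 : w ≤ 1 := hwv.trans hAd.v1.le
  have hH0 : 0 ≤ H := by linarith
  obtain ⟨κc, hκc⟩ : ∃ κc : ℝ, κc = Real.exp (-(8 * (3 * Real.log 15 +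
      6 * Real.log (16 * 10 + 21)))) / 2 := ⟨_, rfl⟩
  have hκc0 : 0 < κc := by rw [hκc]; positivity
  obtain ⟨ξ, hξ⟩ : ∃ ξ, ξ = min (min (k / 16) (min h₁ 1 / 16)) ((σ 1).pi / 16) := ⟨_, rfl⟩
  have hm0 : 0 < min h₁ 1 := lt_min hC.h₁0 one_pos
  have hξ0 : 0 < ξ := by
    rw [hξ]
    exact lt_min (lt_min (by linarith only [hk]) (by linarith)) (by linarith)
  have hξ1 : ξ ≤ k / 16 := by rw [hξ]; exact (min_le_left _ _).trans (min_le_left _ _)
  have hξ2 : ξ ≤ h₁ / 16 := by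
    rw [hξ]
    refine ((min_le_left _ _).trans (min_le_right _ _)).trans ?_
    have := min_le_left h₁ 1
    linarith only [this]
  have hξ3 : ξ ≤ 1 / 16 := by
    rw [hξ]
    refine ((min_le_left _ _).trans (min_le_right _ _)).trans ?_
    have := min_le_right h₁ 1
    linarith only [this]
  have hξ4 : ξ ≤ (σ 1).pi / 16 := by rw [hξ]; exact min_le_right _ _
  have c1 := hR1.pi.1 (k / 4) (by linarith only [hξ0, hξ1])
  have c2 := (hR1.rot w hw0 hw1).1 (k / 4) (by linarith only [hξ0, hξ1])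
  obtain ⟨τ, hτ, J₁, hsp⟩ := spread_part hC.a1 hC.R0 hC.ub hC.st hC.lb hξ0
  have c3 : Clp S (fun J F A => ∀ q : ℕ, q ≤ J → ξ * J ≤ q → q + 2 ≤ ⌊h₁ * J⌋₊ →
      ∃ B : F.Ω → Prop, Sub B A ∧ Real.exp (-Real.log 2) * Pe F.p A ≤ Pe F.p B ∧
      ∀ ω, B ω → ∃ ω' ω'', B ω' ∧ B ω'' ∧ Fam.pt F ω' = Fam.pt F ω ∧
        Fam.pt F ω'' = Fam.pt F ω ∧ 1 / 2 ^ (q + 1) ≤ |F.d ω' i₀ - F.d ω'' i₀|) :=
    Clp.base τ hτ J₁ hsp
  exact by
   have c3' := c3.ev (ϖ := θ / 4) (by linarith only [hθ])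
   have c4 : Clp S (fun J F A => Lb F i₀ ⌊h₁ * J⌋₊ A ∧ 0 < Pe F.p A) :=
     Clp.base 1 one_pos 0 fun J _ F A hA => ⟨hC.lb _ _ _ _ hA,
       lt_of_lt_of_le (Real.exp_pos _) (hC.st _ _ _ _ hA).2.2.2⟩
   have c5 := nst_adm hC hAd hw0 hwv (s := T) (g' := H) (C := max 1 (1 / θ)) hH0 hT1 hH1 hH2
     (le_max_left _ _)
   obtain ⟨J₃, hJ₃⟩ := exists_nat_gt (64 / k + 16 / h₁ + 16 + 16 / (σ 1).pi)
   refine ⟨κc * (1 / 2 * (θ / 4)), by positivity,
     Clp.mono (J₂ := J₃) ((((c1.and c2).and c3').and c4).and c5) ?_⟩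
   rintro J hJ F A ⟨⟨⟨⟨d1, d2⟩, d3⟩, ⟨eb, nb, hb⟩, d4⟩, d5⟩ G hG hPG sg hinj hsg z hz
   have hJr : 64 / k + 16 / h₁ + 16 + 16 / (σ 1).pi < J :=
     hJ₃.trans_le (by exact_mod_cast hJ)
   have q1 : 0 < 64 / k := by positivity
   have q2 : 0 < 16 / h₁ := div_pos (by norm_num) hC.h₁0
   have q3 : 0 < 16 / (σ 1).pi := by positivity
   have hJk : 64 < J * k := by
     have : 64 / k < J := by linarith only [hξ0, hξ3, hJr, q2, q3]
     rwa [div_lt_iff₀ hk] at this
   have hJh₁ : 16 < J * h₁ := by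
     have : 16 / h₁ < J := by linarith only [hξ0, hξ3, hJr, q1, q3]
     rwa [div_lt_iff₀ hC.h₁0] at this
   have hJpi : 16 < J * (σ 1).pi := by
     have : 16 / (σ 1).pi < J := by linarith only [hξ0, hξ3, hJr, q1, q2]
     rwa [div_lt_iff₀ hpi0] at this
   have hJ0 : (0 : ℝ) ≤ J := Nat.cast_nonneg J
   have hJ16 : (16 : ℝ) < J := by linarith only [hJr, q1, q2, q3]
   -- the order of the coordinates
   have n10 : sg 1 ≠ i₀ := by rw [← hsg]; exact fun h => by simpa using hinj h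
   have n20 : sg 2 ≠ i₀ := by rw [← hsg]; exact fun h => by simpa using hinj h
   have n21 : sg 2 ≠ sg 1 := fun h => by simpa using hinj h
   exact by
    have hi : ∀ j : Fin 3, j = i₀ ∨ j = sg 1 ∨ j = sg 2 := by
      intro j
      obtain ⟨i, rfl⟩ := (Finite.injective_iff_surjective.1 hinj) j
      fin_cases i
      · exact Or.inl hsg
      · exact Or.inr (Or.inl rfl)
      · exact Or.inr (Or.inr rfl)
    -- straightness in the direction of the normals
    obtain ⟨φz, hφz⟩ := fn_of (f := Fam.pt F) hz.vis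
    obtain ⟨ψz, hψz⟩ := fn_of (f := slam F ⌊(w : ℝ) * J⌋₊) hz.con
    have hzI := hz.inc
    rw [hsg] at hzI
    obtain ⟨B₁, hB₁, hPB₁, bb, kk, hbk⟩ := d5 G hG (by
        have h1 : 1 / θ * (θ * Pe F.p A) ≤ 1 / θ * Pe F.p G :=
          mul_le_mul_of_nonneg_left hPG (by positivity)
        have h2 : 1 / θ * (θ * Pe F.p A) = Pe F.p A := by field_simp
        rw [h2] at h1
        exact h1.trans (mul_le_mul_of_nonneg_right (le_max_right _ _) (Pe_nonneg F.isLaw G)))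
      (sg 1) (sg 2) hi z (fun ω hω => Pool.S6F.inc_lam (by norm_num) (Nat.zero_le _) (hzI ω hω))
      ⟨φz, hφz⟩ ⟨ψz, hψz⟩
    -- spread fans
    obtain ⟨q, hq⟩ : ∃ q, q = ⌈ξ * J⌉₊ := ⟨_, rfl⟩
    have hq1 : ξ * J ≤ q := by rw [hq]; exact Nat.le_ceil _
    have hq2 : (q : ℝ) < ξ * J + 1 := by rw [hq]; exact Nat.ceil_lt_add_one (by positivity)
    have hqJ : q ≤ J := by
      have e1 : ξ * J ≤ 1 / 16 * J := mul_le_mul_of_nonneg_right hξ3 hJ0
      have : (q : ℝ) ≤ J := by linarith only [hξ0, hξ3, hJr, q1, q2, q3, hq2, e1]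
      exact_mod_cast this
    have e2 : ξ * J ≤ h₁ / 16 * J := mul_le_mul_of_nonneg_right hξ2 hJ0
    have e3 : ξ * J ≤ (σ 1).pi / 16 * J := mul_le_mul_of_nonneg_right hξ4 hJ0
    exact by
     have e4 : ξ * J ≤ k / 16 * J := mul_le_mul_of_nonneg_right hξ1 hJ0
     have hqh : q + 4 ≤ ⌊h₁ * J⌋₊ := by
       refine Nat.le_floor ?_
       push_cast
       linarith only [hξ0, hξ3, hJh₁, hq2, e2]
     obtain ⟨B, hB, hPB, hBs⟩ := d3 B₁ (hB₁.trans hG) (by linarith only [hPG, hPB₁]) q hqJ hq1 (by omega)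
     have hexp : Real.exp (-Real.log 2) = 1 / 2 := by
       rw [Real.exp_neg (Real.log 2), Real.exp_log (by norm_num), one_div]
     rw [hexp] at hPB
     have hPeB : 1 / 2 * (θ / 4) * Pe F.p A ≤ Pe F.p B := by linarith only [hPG, hPB₁, hPB]
     have hPB0 : 0 < Pe F.p B := lt_of_lt_of_le (by positivity) hPeB
     have hBG : Sub B G := hB.trans hB₁
     have hBA : Sub B A := hBG.trans hG
     -- the own slopes
     rcases d1 with d1 | ⟨-, e', n', h3⟩
     · linarith only [hkp, hξ0, hξ1, d1]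
     rw [ptq_one F] at h3
     obtain ⟨L, hL⟩ : ∃ L, L = ⌊((σ 1).pi - k / 4) * J⌋₊ := ⟨_, rfl⟩
     rw [← hL] at h3
     have hkpJ : k * J ≤ (σ 1).pi * J := mul_le_mul_of_nonneg_right hkp hJ0
     have hqL : q + 4 ≤ L := by
       rw [hL]
       refine Nat.le_floor ?_
       push_cast
       nlinarith only [hξ0, hξ3, hJk, hq2, e3, hkpJ]
     have hLL : ⌊((σ 1).pi - k) * J⌋₊ ≤ L := by
       rw [hL]
       exact Nat.floor_le_floor (mul_le_mul_of_nonneg_right (by linarith only [hξ0, hξ1]) hJ0)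
     have h3' : OnL i₀ (1 / 2 ^ L) (ptq F J) F.d B e' n' := fun ω hω => h3 ω (hBA _ hω)
     have bd := slope_le le_rfl (fun _ h => h) hBs (hb.sub hBA) h3' hqL hqh
     exact by
      have bd' : ∀ ω, B ω → |e' (Fam.pt F ω) (sg 1)| ≤ 2 := fun ω hω => bd ω hω (sg 1)
      -- tube labels
      have hrp := Pool.S6C.rot_le_pi hC.ne hR1 hw0 hw1
      obtain ⟨l, hl⟩ : ∃ l, l = ⌊((σ 1).rot w - k) * J⌋₊ := ⟨_, rfl⟩
      have fw : (⌊(w : ℝ) * J⌋₊ : ℝ) ≤ w * J := Nat.floor_le (by positivity)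
      have fw' : (w : ℝ) * J < ⌊(w : ℝ) * J⌋₊ + 1 := Nat.lt_floor_add_one _
      have hwJ : ⌊(w : ℝ) * J⌋₊ ≤ J := by
        have h1 : (w : ℝ) ≤ 1 := by exact_mod_cast hw1
        have h2 : (w : ℝ) * J ≤ 1 * J := mul_le_mul_of_nonneg_right h1 hJ0
        have : (⌊(w : ℝ) * J⌋₊ : ℝ) ≤ J := by linarith only [fw, h2]
        exact_mod_cast this
      have tub : ∃ B' : F.Ω → Prop, Sub B' B ∧ κc * Pe F.p B ≤ Pe F.p B' ∧
          LABq F J i₀ (sg 1) (sg 2) ⌊(w : ℝ) * J⌋₊ l 0 2 B' := by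
        rcases le_or_gt ((σ 1).rot w) k with hle | hgt
        · have hl0 : l = 0 := by
            rw [hl]
            exact Nat.floor_of_nonpos (mul_nonpos_of_nonpos_of_nonneg (by linarith only [hle]) hJ0)
          obtain ⟨B', g1, g2, g3⟩ := tub_one F hi (w := ⌊(w : ℝ) * J⌋₊) (l := 0) hPB0
            (a := fun _ => 0) (n := fun _ => 0) (ζ := fun _ => 0) (fun ω _ => by
              have := F.dir ω (sg 1)
              simpa using this) (fun ω _ => by simp) (fun ω _ => by simp) (by omega)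
          rw [hl0, hκc]
          exact ⟨B', g1, g2, g3⟩
        · rcases d2 with d2 | ⟨-, e2, n2, ζ2, h4, h5⟩
          · linarith only [hξ0, hξ1, hgt, d2]
          rw [ptq_one F] at h4 h5
          obtain ⟨l1, hl1⟩ : ∃ l1, l1 = ⌊((σ 1).rot w - k / 4) * J⌋₊ := ⟨_, rfl⟩
          rw [← hl1] at h4 h5
          have hgJ : k * J ≤ (σ 1).rot w * J := mul_le_mul_of_nonneg_right hgt.le hJ0
          have g2 : q + 4 ≤ l1 := by
            rw [hl1]
            refine Nat.le_floor ?_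
            push_cast
            nlinarith only [hwr, hw0r, hξ0, hξ1, hJk, hq2, e4, hgt, hgJ]
          have hll : l ≤ l1 := by
            rw [hl, hl1]
            exact Nat.floor_le_floor (mul_le_mul_of_nonneg_right (by linarith only [hξ0, hξ1]) hJ0)
          have h4' : OnL i₀ (1 / 2 ^ l1) (ptq F J) F.d B e2 n2 := fun ω hω => h4 ω (hBA _ hω)
          have bd2 := slope_le le_rfl (fun _ h => h) hBs (hb.sub hBA) h4' g2 hqh
          have i1 : (1 : ℝ) / 2 ^ l1 ≤ 1 / 2 ^ l := inv_mono hll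
          have fl : (l : ℝ) ≤ ((σ 1).rot w - k) * J := by
            rw [hl]
            exact Nat.floor_le (mul_nonneg (by linarith only [hgt]) hJ0)
          obtain ⟨B', g1, g3, g4⟩ := tub_one F hi (w := ⌊(w : ℝ) * J⌋₊) (l := l) hPB0
            (a := fun u => e2 u (sg 1)) (n := fun u => n2 u (sg 1)) (ζ := fun u => ζ2 u (sg 1))
            (fun ω hω => (h4 ω (hBA _ hω) (sg 1)).trans i1)
            (fun ω hω => (h5 ω (hBA _ hω) (sg 1)).trans i1) (fun ω hω => bd2 ω hω (sg 1)) (by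
              have e5 : ((w : ℝ) + (σ 1).rot w) * J ≤ 1 * J := mul_le_mul_of_nonneg_right hwr hJ0
              have : ((⌊(w : ℝ) * J⌋₊ + l : ℕ) : ℝ) ≤ J := by
                push_cast
                nlinarith only [hwr, hw0r, hξ0, hξ1, hJk, fw, hgt, fl, e5]
              exact_mod_cast this)
          rw [hκc]
          exact ⟨B', g1, g3, g4⟩
      exact by
       obtain ⟨B', hB', hPB', y, hy1, ⟨φy, hy2⟩, ψy, hy3⟩ := tub
       have hB'G : Sub B' G := hB'.trans hBG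
       -- the slope of the label
       have hpow : ∀ m : ℕ, (3 : ℝ) / 2 ^ (m + q + 4) * 2 * 2 ^ (q + 1) ≤ 1 / 2 ^ m := by
         intro m
         have e5 : (3 : ℝ) / 2 ^ (m + q + 4) * 2 * 2 ^ (q + 1) = 3 / 4 * (1 / 2 ^ m) := by
           rw [show m + q + 4 = m + (q + 1) + 3 by ring, pow_add, pow_add]
           field_simp
           norm_num
         rw [e5]
         have : (0 : ℝ) < 1 / 2 ^ m := by positivity
         linarith only [this]
       have hz1 : ∀ ω, B ω → |(z ω).e - e' (Fam.pt F ω) (sg 1)| ≤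
           4 / 2 ^ ⌊((σ 1).rot w - ρ - k) * J⌋₊ := by
         intro ω hω
         rcases le_or_gt ((σ 1).rot w - ρ - k) 0 with hle | hgt
         · rw [Nat.floor_of_nonpos (mul_nonpos_of_nonpos_of_nonneg hle hJ0), pow_zero, div_one]
           have h1 := (hzI ω (hBG _ hω)).e_le
           have h2 := bd' ω hω
           exact (abs_sub _ _).trans (by linarith only [h1, h2])
         obtain ⟨m, hm⟩ : ∃ m, m = ⌊((σ 1).rot w - ρ - k) * J⌋₊ := ⟨_, rfl⟩
         have fm : (m : ℝ) ≤ ((σ 1).rot w - ρ - k) * J := by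
           rw [hm]
           exact Nat.floor_le (mul_nonneg hgt.le hJ0)
         have g1 : m + q + 4 ≤ L := by
           rw [hL]
           refine Nat.le_floor ?_
           push_cast
           have : (σ 1).rot w * J ≤ (σ 1).pi * J := mul_le_mul_of_nonneg_right hrp hJ0
           have hρJ : 0 ≤ ρ * J := mul_nonneg hρ hJ0
           nlinarith only [hρ, hwr, hw0r, hξ0, hξ1, hJk, hq2, e4, hgt, fm, this, hρJ]
         have g2 : m + q + 4 ≤ ⌊((σ 1).rot w - ρ) * J⌋₊ := by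
           refine Nat.le_floor ?_
           push_cast
           nlinarith only [hρ, hwr, hw0r, hξ0, hξ1, hJk, hq2, e4, hgt, fm]
         have i1 : (1 : ℝ) / 2 ^ L ≤ 1 / 2 ^ (m + q + 4) := inv_mono g1
         have i2 : (1 : ℝ) / 2 ^ ⌊((σ 1).rot w - ρ) * J⌋₊ ≤ 1 / 2 ^ (m + q + 4) := inv_mono g2
         have key := slope_near (F := F) (B := B) (i₀ := i₀) (q := q) (a := fun ω => (z ω).e)
           (a' := fun ω => e' (Fam.pt F ω) (sg 1))
           (n := fun ω => fu i₀ (sg 1) (z ω).e (z ω).db) (n' := fun ω => n' (Fam.pt F ω) (sg 1))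
           (E := 3 / 2 ^ (m + q + 4)) hBs
           (fun a b ha hb hab => by rw [hz.vis a b (hBG _ ha) (hBG _ hb) hab])
           (fun a b _ _ hab => by rw [hab])
           (fun a b ha hb hab => by rw [hz.vis a b (hBG _ ha) (hBG _ hb) hab])
           (fun a b _ _ hab => by rw [hab]) (fun ω' hω' => by
             have k1 := h3 ω' (hBA _ hω') (sg 1)
             have k2 := (hzI ω' (hBG _ hω')).vu
             have e5 : ((z ω').e - e' (Fam.pt F ω') (sg 1)) * F.d ω' i₀ +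
                 (fu i₀ (sg 1) (z ω').e (z ω').db - n' (Fam.pt F ω') (sg 1)) =
                 (F.d ω' (sg 1) - e' (Fam.pt F ω') (sg 1) * F.d ω' i₀ - n' (Fam.pt F ω') (sg 1)) -
                   (fu i₀ (sg 1) (z ω').e (F.d ω') - fu i₀ (sg 1) (z ω').e (z ω').db) := by
               unfold fu
               ring
             beta_reduce
             rw [e5]
             refine (abs_sub _ _).trans ?_
             have e6 : (2 : ℝ) / 2 ^ ⌊((σ 1).rot w - ρ) * J⌋₊ =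
                 2 * (1 / 2 ^ ⌊((σ 1).rot w - ρ) * J⌋₊) := by ring
             rw [e6] at k2
             have e7 : (3 : ℝ) / 2 ^ (m + q + 4) = 3 * (1 / 2 ^ (m + q + 4)) := by ring
             rw [e7]
             linarith only [i1, i2, k1, k2]) ω hω
         rw [← hm]
         have h1 := hpow m
         have h2 : (1 : ℝ) / 2 ^ m ≤ 4 / 2 ^ m :=
           div_le_div_of_nonneg_right (by norm_num) (by positivity)
         beta_reduce at key
         linarith only [key, h1, h2]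
       -- the slope in the direction of the normals
       exact by
        have hkk : ∀ ω, B ω → |kk (Fam.pt F ω)| ≤ 1 / 2 ^ ⌊(T - w - k) * J⌋₊ := by
          intro ω hω
          obtain ⟨m, hm⟩ : ∃ m, m = ⌊(T - w - k) * J⌋₊ := ⟨_, rfl⟩
          have fm : (m : ℝ) ≤ (T - w - k) * J := by
            rw [hm]
            exact Nat.floor_le (mul_nonneg (by linarith only [hkT, hξ0, hξ1]) hJ0)
          have g1 : m + q + 4 ≤ ⌊H * J⌋₊ := by
            refine Nat.le_floor ?_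
            push_cast
            have : (T - w) * J ≤ H * J := mul_le_mul_of_nonneg_right hTH hJ0
            nlinarith only [hξ0, hξ3, hJk, hq2, e4, fm, this]
          have g2 : ⌊(w : ℝ) * J⌋₊ + (m + q + 4) ≤ ⌊T * J⌋₊ := by
            refine Nat.le_floor ?_
            push_cast
            nlinarith only [hξ0, hξ3, hJk, hq2, e4, fw, fm]
          have i1 : (1 : ℝ) / 2 ^ ⌊H * J⌋₊ ≤ 1 / 2 ^ (m + q + 4) := inv_mono g1
          have i2 : (2 : ℝ) * 2 ^ ⌊(w : ℝ) * J⌋₊ / 2 ^ ⌊T * J⌋₊ ≤ 2 / 2 ^ (m + q + 4) := by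
            rw [div_le_div_iff₀ (by positivity) (by positivity)]
            calc (2 : ℝ) * 2 ^ ⌊(w : ℝ) * J⌋₊ * 2 ^ (m + q + 4) =
                  2 * 2 ^ (⌊(w : ℝ) * J⌋₊ + (m + q + 4)) := by rw [pow_add]; ring
              _ ≤ 2 * 2 ^ ⌊T * J⌋₊ :=
                  mul_le_mul_of_nonneg_left (pow_le_pow_right₀ (by norm_num) g2) (by norm_num)
          have key := slope_near (F := F) (B := B) (i₀ := i₀) (q := q) (a := fun ω => kk (Fam.pt F ω))
            (a' := fun _ => 0) (n := fun ω => bb (Fam.pt F ω))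
            (n' := fun ω => fn i₀ (sg 1) (sg 2) (z ω).c (z ω).s (z ω).db)
            (E := 3 / 2 ^ (m + q + 4)) hBs
            (fun a b _ _ hab => by rw [hab]) (fun a b _ _ _ => rfl)
            (fun a b _ _ hab => by rw [hab])
            (fun a b ha hb hab => by rw [hz.vis a b (hBG _ ha) (hBG _ hb) hab]) (fun ω' hω' => by
              have k1 : |fn i₀ (sg 1) (sg 2) (z ω').c (z ω').s (F.d ω') - bb (Fam.pt F ω') -
                  kk (Fam.pt F ω') * F.d ω' i₀| ≤ 1 / 2 ^ ⌊H * J⌋₊ := hbk ω' (hB _ hω')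
              have k2 := (hzI ω' (hBG _ hω')).vn
              have e5 : (kk (Fam.pt F ω') - 0) * F.d ω' i₀ + (bb (Fam.pt F ω') -
                  fn i₀ (sg 1) (sg 2) (z ω').c (z ω').s (z ω').db) =
                  (fn i₀ (sg 1) (sg 2) (z ω').c (z ω').s (F.d ω') -
                    fn i₀ (sg 1) (sg 2) (z ω').c (z ω').s (z ω').db) -
                  (fn i₀ (sg 1) (sg 2) (z ω').c (z ω').s (F.d ω') - bb (Fam.pt F ω') -
                  kk (Fam.pt F ω') * F.d ω' i₀) := by ring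
              beta_reduce
              rw [e5]
              refine (abs_sub _ _).trans ?_
              have e7 : (3 : ℝ) / 2 ^ (m + q + 4) = 2 / 2 ^ (m + q + 4) + 1 / 2 ^ (m + q + 4) := by
                ring
              rw [e7]
              linarith only [i1, i2, k1, k2]) ω hω
          rw [← hm]
          have h1 := hpow m
          beta_reduce at key
          rw [sub_zero] at key
          linarith only [key, h1]
        exact by
         refine ⟨B', hB'G, ?_, y, fun ω => e' (Fam.pt F ω) (sg 1), ⟨?_, ⟨φy, hy2⟩, ⟨ψy, hy3⟩⟩,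
           ⟨⟨fun u => e' u (sg 1), fun _ _ => rfl⟩, fun ω hω => bd' ω (hB' _ hω),
             fun u => n' u (sg 1), fun ω hω => ?_⟩, fun ω hω => hz1 ω (hB' _ hω), bb, kk,
           fun ω hω => ⟨?_, ?_⟩⟩
         · calc κc * (1 / 2 * (θ / 4)) * Pe F.p A = κc * (1 / 2 * (θ / 4) * Pe F.p A) := by ring
             _ ≤ κc * Pe F.p B := mul_le_mul_of_nonneg_left hPeB hκc0.le
             _ ≤ Pe F.p B' := hPB'
         · intro ω hω
           rw [hsg, ← hl]
           exact hy1 ω hω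
         · rw [hsg]
           have h1 := h3 ω (hBA _ (hB' _ hω)) (sg 1)
           have h2 : (1 : ℝ) / 2 ^ L ≤ 1 / 2 ^ ⌊((σ 1).pi - k) * J⌋₊ := inv_mono hLL
           have h4 : (1 : ℝ) / 2 ^ ⌊((σ 1).pi - k) * J⌋₊ ≤ 2 / 2 ^ ⌊((σ 1).pi - k) * J⌋₊ :=
             div_le_div_of_nonneg_right (by norm_num) (by positivity)
           linarith only [h1, h2, h4]
         · rw [hsg]
           have h1 : |fn i₀ (sg 1) (sg 2) (z ω).c (z ω).s (F.d ω) - bb (Fam.pt F ω) -
                   kk (Fam.pt F ω) * F.d ω i₀| ≤ 1 / 2 ^ ⌊H * J⌋₊ := hbk ω (hB _ (hB' _ hω))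
           have h2 : (1 : ℝ) / 2 ^ ⌊H * J⌋₊ ≤ 1 / 2 ^ ⌊(H - k) * J⌋₊ :=
             inv_mono (Nat.floor_le_floor (mul_le_mul_of_nonneg_right (by linarith only [hξ0, hξ1]) hJ0))
           have h4 : (1 : ℝ) / 2 ^ ⌊(H - k) * J⌋₊ ≤ 2 / 2 ^ ⌊(H - k) * J⌋₊ :=
             div_le_div_of_nonneg_right (by norm_num) (by positivity)
           exact h1.trans (h2.trans h4)
         · have h1 := hkk ω (hB' _ hω)
           have h4 : (1 : ℝ) / 2 ^ ⌊(T - w - k) * J⌋₊ ≤ 2 / 2 ^ ⌊(T - w - k) * J⌋₊ :=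
             div_le_div_of_nonneg_right (by norm_num) (by positivity)
           exact h1.trans h4

end Pool.S6V
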