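import Pool.Agent.H33.S6.NatC
import Pool.Agent.H23.S6E.Vdf2

/-!
# Comparison of two deficits: frame, levels, conditions
-/

set_option autoImplicit false

namespace Pool.S6V

open Finset Real
open Pool.Agent.H49.Ent Pool.Agent.H32.Dense Pool.STK Pool.KA Pool.KSAT Pool.K2S Pool.PB Pool.KS6
  Pool.S6C Pool.S6U Pool.KA.Vd

/-- **Comparison of two deficits** with the same normals. -/
theorem vd_conv {J : ℕ} {F : Fam 3 J} {P : F.Ω → ℝ} (hp : IsLaw P) {ς : Fin 3 → Fin 3}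
    {τ τ' : Type} (Θ : F.Ω → τ) (Θ' : F.Ω → τ') (hΘ : Det P Θ' Θ) {a al s t : F.Ω → ℝ}
    {r U N r₀ U₀ p₀ g e e' : ℕ} (h1 : r₀ ≤ U₀) (h2 : U₀ ≤ p₀) (h3 : p₀ ≤ N) (h4 : r₀ ≤ r + e)
    (h5 : U₀ ≤ U + e) (h6 : U₀ ≤ r₀ + g + e')
    (hl : ∀ ω, 0 < P ω → |al ω| ≤ 4)
    (hs : ∀ ω, 0 < P ω → |s ω| ≤ 4) (ht : ∀ ω, 0 < P ω → |t ω| ≤ 4)
    (hal : ∀ ω, 0 < P ω → |a ω - al ω| ≤ 4 / 2 ^ g)
    (hf : Fd P Θ' a s t) (hf' : Fd P Θ' (ald (U₀ - r₀) al) s t) :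
    F.vdf P ς r U N a s t Θ ≤ F.vdf P ς r₀ U₀ p₀ (ald (U₀ - r₀) al) s t Θ' +
      (3 * ((N : ℝ) - p₀) + 2 * e + e') * Real.log 2 +
      ((3 : ℕ) * Real.log (6 * 5 + 3) + (3 : ℕ) * Real.log (6 * 5 + 3) + K1 5) := by
  obtain ⟨r₁, hr₁⟩ : ∃ r₁, r₁ = min r r₀ := ⟨_, rfl⟩
  obtain ⟨U₁, hU₁⟩ : ∃ U₁, U₁ = min (min U U₀) (r₁ + min g (U₀ - r₀)) := ⟨_, rfl⟩
  have hl2 : 0 < Real.log 2 := Real.log_pos (by norm_num)
  have a1 : r₁ ≤ r := by omega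
  have a2 : r₁ ≤ r₀ := by omega
  have a3 : U₁ ≤ U := by omega
  have a4 : U₁ ≤ U₀ := by omega
  have a5 : U₁ ≤ r₁ + g := by omega
  have a6 : U₁ ≤ r₁ + (U₀ - r₀) := by omega
  have a7 : r₀ ≤ r₁ + e := by omega
  have a8 : U₀ ≤ U₁ + (e + e') := by omega
  have hD : ∀ ω, 0 < P ω → |ald (U₀ - r₀) al ω - al ω| ≤ 1 / 2 ^ (U₀ - r₀) := by
    intro ω _
    have := floor_near (U₀ - r₀) (al ω)
    rw [abs_sub_comm]
    exact this
  have hbd : ∀ ω, 0 < P ω → |ald (U₀ - r₀) al ω| ≤ 5 ∧ |s ω| ≤ 5 ∧ |t ω| ≤ 5 := by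
    intro ω hω
    have k1 := hD ω hω
    have k2 : (1 : ℝ) / 2 ^ (U₀ - r₀) ≤ 1 := by
      rw [div_le_one (by positivity)]
      exact one_le_pow₀ (by norm_num)
    have k3 := hl ω hω
    have k4 := abs_sub_abs_le_abs_sub (ald (U₀ - r₀) al ω) (al ω)
    exact ⟨by linarith, (hs ω hω).trans (by norm_num), (ht ω hω).trans (by norm_num)⟩
  -- the condition
  have b1 := vdf_cond (F := F) (σ := ς) (a := a) (s := s) (t := t) (r := r) (U := U) (N := N) hp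
    Θ Θ' hΘ
  -- the normal coordinate
  have b2 := vdf_lipN (F := F) (σ := ς) (a := a) (s := s) (t := t) (r := r) (U := U) hp h3 Θ'
  -- the levels
  have b3 := vdf_mono (F := F) (σ := ς) (a := a) (s := s) (t := t) (N := p₀) hp a1 a3 Θ'
  -- the frame
  have b4 := vdf_chg (F := F) (σ := ς) (a := a) (s := s) (t := t) (a' := ald (U₀ - r₀) al)
    (s' := s) (t' := t) (r := r₁) (U := U₁) (N := p₀) (B := 5) (D := 5) hp (by norm_num)
    (by norm_num) (by omega) (by omega) hbd (fun ω hω => by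
      have k1 := hD ω hω
      have k2 := hal ω hω
      refine ⟨?_, ?_, ?_⟩
      · have e1 : a ω - ald (U₀ - r₀) al ω = (a ω - al ω) - (ald (U₀ - r₀) al ω - al ω) := by
          ring
        rw [e1]
        refine (abs_sub _ _).trans ((add_le_add k2 k1).trans ?_)
        have m1 : (4 : ℝ) / 2 ^ g ≤ 4 * 2 ^ r₁ / 2 ^ U₁ := by
          rw [div_le_div_iff₀ (by positivity) (by positivity)]
          calc (4 : ℝ) * 2 ^ U₁ ≤ 4 * 2 ^ (r₁ + g) :=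
                mul_le_mul_of_nonneg_left (pow_le_pow_right₀ (by norm_num) a5) (by norm_num)
            _ = 4 * 2 ^ r₁ * 2 ^ g := by rw [pow_add]; ring
        have m2 : (1 : ℝ) / 2 ^ (U₀ - r₀) ≤ 2 ^ r₁ / 2 ^ U₁ := by
          rw [div_le_div_iff₀ (by positivity) (by positivity)]
          calc (1 : ℝ) * 2 ^ U₁ ≤ 1 * 2 ^ (r₁ + (U₀ - r₀)) :=
                mul_le_mul_of_nonneg_left (pow_le_pow_right₀ (by norm_num) a6) (by norm_num)
            _ = 2 ^ r₁ * 2 ^ (U₀ - r₀) := by rw [pow_add]; ring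
        have e2 : (5 : ℝ) * 2 ^ r₁ / 2 ^ U₁ = 4 * 2 ^ r₁ / 2 ^ U₁ + 2 ^ r₁ / 2 ^ U₁ := by ring
        rw [e2]
        exact add_le_add m1 m2
      · rw [sub_self, abs_zero]
        positivity
      · rw [sub_self, sub_self, zero_mul, add_zero, abs_zero]
        positivity) Θ' hf hf'
  -- the levels of the second deficit
  have b5 := vdf_lip (F := F) (σ := ς) (a := ald (U₀ - r₀) al) (s := s) (t := t) (N := p₀)
    (B := 5) hp (by norm_num) a2 a4 (by omega) h2 hbd Θ'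
  have c1 : ((r₀ : ℝ) - r₁) + ((U₀ : ℝ) - U₁) ≤ 2 * e + e' := by
    have d1 : (r₀ : ℝ) ≤ r₁ + e := by exact_mod_cast a7
    have d2 : (U₀ : ℝ) ≤ U₁ + (e + e') := by exact_mod_cast a8
    linarith
  have c2 := mul_le_mul_of_nonneg_right c1 hl2.le
  linarith

end Pool.S6V
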