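import Pool.Agent.H33.S6.NatD
import Pool.Agent.H51.S6.Uvc
import Pool.Agent.H62.S6.Ord

/-!
# Natural boxes are full, at one window

From the comparison of the windows `w` and `x₁`, and the bound at the window `x₁`, to the deficit
beyond the natural box of the window `w` in the frame of any natural label.
-/

set_option autoImplicit false

namespace Pool.S6V

open Finset Real
open Pool.Agent.H49.Ent Pool.Agent.H32.Dense Pool.STK Pool.KA Pool.KSAT Pool.K2S Pool.PB Pool.KS6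
  Pool.S6C Pool.S6U Pool.KA.Vd

theorem nl_sub {J : ℕ} {F : Fam 3 J} {A B : F.Ω → Prop} {σ : Fin 3 → Fin 3} {w lam P : ℕ}
    {z : F.Ω → Pln} (h : NL F A σ w lam P z) (hB : Sub B A) : NL F B σ w lam P z :=
  ⟨fun ω hω => h.inc ω (hB _ hω), fun ω ω' h1 h2 => h.vis ω ω' (hB _ h1) (hB _ h2),
    fun ω ω' h1 h2 => h.con ω ω' (hB _ h1) (hB _ h2)⟩

/-- The labels on an event, from the parts. -/
theorem pkl_cmb {J : ℕ} {F : Fam 3 J} {B : F.Ω → Prop} {sg : Fin 3 → Fin 3}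
    (hinj : Function.Injective sg) {w lam lz P : ℕ} {τ : Type} {κ : F.Ω → τ} {z y : F.Ω → Pln}
    (hκ : SL F B w κ) (hz : NL F B sg w lz P z) (hy : PkL F B sg w lam 0 2 y id)
    (hB : ∃ ω, B ω) :
    PkL F B sg w lam P 2 (fun ω => (κ ω, z ω, y ω))
      (fun u : τ × Pln × Pln => cmb (sg 0) (sg 1) (sg 2) u.2.1 u.2.2) := by
  obtain ⟨ω₀, -⟩ := hB
  have : Nonempty τ := ⟨κ ω₀⟩
  have n10 : sg 1 ≠ sg 0 := fun h => by simpa using hinj h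
  have n20 : sg 2 ≠ sg 0 := fun h => by simpa using hinj h
  have n21 : sg 2 ≠ sg 1 := fun h => by simpa using hinj h
  obtain ⟨φ, hφ⟩ := hy.pt
  obtain ⟨ψ, hψ⟩ := hy.sl
  refine ⟨fun ω hω => inc_cmb n10 n20 n21 (hz.inc ω hω) (hy.inc ω hω) le_rfl, ?_, ?_⟩
  · refine fn_of (f := Fam.pt F) fun ω ω' h1 h2 e => ?_
    exact Prod.ext (hκ.vis ω ω' h1 h2 e) (Prod.ext (hz.vis ω ω' h1 h2 e)
      (by rw [hφ ω h1, hφ ω' h2, e]))
  · refine fn_of (f := slam F w) fun ω ω' h1 h2 e => ?_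
    exact Prod.ext (hκ.con ω ω' h1 h2 e) (Prod.ext (hz.con ω ω' h1 h2 e)
      (by rw [hψ ω h1, hψ ω' h2, e]))

/-- The numbers of digits. -/
theorem nat_levels {w q q' p N rt k ρ : ℝ} {J : ℕ} (hw : 0 ≤ w) (hq : 0 ≤ q) (hqq : q ≤ q')
    (hrt : 0 ≤ rt) (hk : 0 ≤ k) (hpN : p ≤ N) :
    (min (⌊w * J⌋₊ + ⌊q' * J⌋₊) ⌊p * J⌋₊ ≤
      min (⌊w * J⌋₊ + ⌊(rt - k) * J⌋₊ + ⌊q' * J⌋₊) ⌊p * J⌋₊) ∧
    (min (⌊w * J⌋₊ + ⌊(rt - k) * J⌋₊ + ⌊q' * J⌋₊) ⌊p * J⌋₊ ≤ ⌊p * J⌋₊) ∧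
    (⌊p * J⌋₊ ≤ ⌊N * J⌋₊) ∧
    (min (⌊w * J⌋₊ + ⌊q' * J⌋₊) ⌊p * J⌋₊ ≤ ⌊(w + q) * J⌋₊ + (⌊(q' - q) * J⌋₊ + 2)) ∧
    (min (⌊w * J⌋₊ + ⌊(rt - k) * J⌋₊ + ⌊q' * J⌋₊) ⌊p * J⌋₊ ≤
      ⌊(w + rt + q) * J⌋₊ + (⌊(q' - q) * J⌋₊ + 2)) ∧
    (min (⌊w * J⌋₊ + ⌊(rt - k) * J⌋₊ + ⌊q' * J⌋₊) ⌊p * J⌋₊ ≤
      min (⌊w * J⌋₊ + ⌊q' * J⌋₊) ⌊p * J⌋₊ + ⌊(rt - ρ - k) * J⌋₊ + (⌊ρ * J⌋₊ + 1)) := by
  have hJ : (0 : ℝ) ≤ J := Nat.cast_nonneg J
  have f1 : (⌊w * J⌋₊ : ℝ) ≤ w * J := Nat.floor_le (by positivity)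
  have f2 : (⌊q' * J⌋₊ : ℝ) ≤ q' * J := Nat.floor_le (mul_nonneg (hq.trans hqq) hJ)
  have f3 : (⌊(rt - k) * J⌋₊ : ℝ) ≤ rt * J := by
    have h1 : (rt - k) * J ≤ rt * J := mul_le_mul_of_nonneg_right (by linarith only [hk]) hJ
    exact (Nat.cast_le.2 (Nat.floor_le_floor h1)).trans (Nat.floor_le (by positivity))
  have f4 : (w + q) * J < ⌊(w + q) * J⌋₊ + 1 := Nat.lt_floor_add_one _
  have f5 : (w + rt + q) * J < ⌊(w + rt + q) * J⌋₊ + 1 := Nat.lt_floor_add_one _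
  have f6 : (q' - q) * J < ⌊(q' - q) * J⌋₊ + 1 := Nat.lt_floor_add_one _
  have f7 : ρ * J < ⌊ρ * J⌋₊ + 1 := Nat.lt_floor_add_one _
  have f8 : (rt - ρ - k) * J < ⌊(rt - ρ - k) * J⌋₊ + 1 := Nat.lt_floor_add_one _
  have f9 : (⌊(rt - k) * J⌋₊ : ℝ) < ⌊(rt - ρ - k) * J⌋₊ + 1 + (⌊ρ * J⌋₊ + 1) := by
    rcases le_or_gt (rt - k) 0 with h | h
    · rw [Nat.floor_of_nonpos (mul_nonpos_of_nonpos_of_nonneg h hJ)]
      have g1 : (0 : ℝ) ≤ ⌊(rt - ρ - k) * J⌋₊ := Nat.cast_nonneg _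
      have g2 : (0 : ℝ) ≤ ⌊ρ * J⌋₊ := Nat.cast_nonneg _
      push_cast
      linarith only
    · have g1 : (⌊(rt - k) * J⌋₊ : ℝ) ≤ (rt - k) * J := Nat.floor_le (by positivity)
      nlinarith only [f7, f8, g1]
  have g1 : ⌊p * J⌋₊ ≤ ⌊N * J⌋₊ := Nat.floor_le_floor (mul_le_mul_of_nonneg_right hpN hJ)
  have g2 : ⌊w * J⌋₊ + ⌊q' * J⌋₊ ≤ ⌊(w + q) * J⌋₊ + (⌊(q' - q) * J⌋₊ + 2) := by
    have : ((⌊w * J⌋₊ + ⌊q' * J⌋₊ : ℕ) : ℝ) <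
        ((⌊(w + q) * J⌋₊ + (⌊(q' - q) * J⌋₊ + 2) : ℕ) : ℝ) := by
      push_cast
      nlinarith only [f1, f2, f4, f6]
    exact_mod_cast this.le
  have g3 : ⌊w * J⌋₊ + ⌊(rt - k) * J⌋₊ + ⌊q' * J⌋₊ ≤
      ⌊(w + rt + q) * J⌋₊ + (⌊(q' - q) * J⌋₊ + 2) := by
    have : ((⌊w * J⌋₊ + ⌊(rt - k) * J⌋₊ + ⌊q' * J⌋₊ : ℕ) : ℝ) <
        ((⌊(w + rt + q) * J⌋₊ + (⌊(q' - q) * J⌋₊ + 2) : ℕ) : ℝ) := by
      push_cast
      nlinarith only [f1, f2, f3, f5, f6]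
    exact_mod_cast this.le
  have g4 : ⌊(rt - k) * J⌋₊ ≤ ⌊(rt - ρ - k) * J⌋₊ + (⌊ρ * J⌋₊ + 1) := by
    have : (⌊(rt - k) * J⌋₊ : ℝ) < ((⌊(rt - ρ - k) * J⌋₊ + (⌊ρ * J⌋₊ + 1) + 1 : ℕ) : ℝ) := by
      push_cast
      linarith only [f9]
    have : ⌊(rt - k) * J⌋₊ < ⌊(rt - ρ - k) * J⌋₊ + (⌊ρ * J⌋₊ + 1) + 1 := by exact_mod_cast this
    omega
  refine ⟨by omega, by omega, g1, by omega, by omega, by omega⟩

/-- **Natural boxes are full**, at one window. -/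
theorem nat_at {S : PCl 3} {a R h₁ : ℝ} {i₀ : Fin 3} {c s₂ : ℝ} {r : ℝ → ℝ} {D : Set ℝ}
    {σ : ℝ → Row} (hC : Cs S a R h₁ i₀ c s₂ r D σ) {K : Set ℝ} {W : ℝ → ℝ} {v₁ t : ℚ} {e₁ : ℝ}
    (hAd : Adm σ K W v₁ t e₁) {w : ℚ} (hw0 : 0 ≤ w) (hwv : w ≤ v₁) {T H ρ θ p N q q' : ℝ}
    (hq : 0 ≤ q) (hqq : q ≤ q') (hpN : p ≤ N) (hN1 : N ≤ 1)
    (hρ : 0 ≤ ρ) (hwr : (w : ℝ) + (σ 1).rot w ≤ 1)
    (hwT : (w : ℝ) < T) (hT1 : T - w ≤ t - v₁ + e₁) (hH1 : H < (σ 1).sN v₁ t)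
    (hH2 : H < T - w + ((σ 1).pi - (σ 1).rot v₁) - e₁) (hTH : T - w ≤ H) (hθ : 0 < θ)
    {x₁ : ℚ} {h h' : ℝ} (hsum : RFull S i₀ (σ 1) T p w q' H w x₁ h)
    (hst : VSmall S i₀ (σ 1) T p w q' H x₁ h') :
    Clp S (fun J F A => ∀ sg : Fin 3 → Fin 3, Function.Bijective sg → sg 0 = i₀ →
      ∀ z : F.Ω → Pln, NL F A sg ⌊(w : ℝ) * J⌋₊ ⌊((σ 1).rot w - ρ) * J⌋₊ ⌊T * J⌋₊ z →
      ∀ (τ : Type) (κ : F.Ω → τ), SL F A ⌊(w : ℝ) * J⌋₊ κ →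
        F.vdf (Pool.Agent.H49.Ent.cond F.p A True) sg ⌊((w : ℝ) + q) * J⌋₊
          ⌊((w : ℝ) + (σ 1).rot w + q) * J⌋₊ ⌊N * J⌋₊ (fra z) (frs z) (frt z)
          (fun ω => (κ ω, (z ω, F.W ω))) ≤
            (|h| + |h'| + 3 * (N - p) + 2 * (q' - q) + ρ + 3 * θ) * J) := by
  classical
  have hR1 := hC.row 1 one_pos le_rfl hC.D1
  have hw1 : w ≤ 1 := hwv.trans hAd.v1.le
  have hw0r : (0 : ℝ) ≤ w := by exact_mod_cast hw0
  have hpi0 : 0 < (σ 1).pi := Pool.S6F.pi_pos hC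
  have hrot0 : 0 ≤ (σ 1).rot w := num_nonneg hC.ne (hR1.rot w hw0 hw1)
  obtain ⟨k₀, hk₀, hk₀'⟩ := hsum
  obtain ⟨k₁, hk₁, hk₁'⟩ := hst
  obtain ⟨k, hk⟩ : ∃ k, k = min (min k₀ k₁) (min (σ 1).pi ((T - w) / 2)) := ⟨_, rfl⟩
  have hk0 : 0 < k := by
    rw [hk]
    exact lt_min (lt_min hk₀ hk₁) (lt_min hpi0 (by linarith only [hwT]))
  have hkk₀ : k ≤ k₀ := by rw [hk]; exact (min_le_left _ _).trans (min_le_left _ _)
  have hkk₁ : k ≤ k₁ := by rw [hk]; exact (min_le_left _ _).trans (min_le_right _ _)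
  have hkp : k ≤ (σ 1).pi := by rw [hk]; exact (min_le_right _ _).trans (min_le_left _ _)
  have hkT : 2 * k ≤ T - w := by
    have : k ≤ (T - w) / 2 := by rw [hk]; exact (min_le_right _ _).trans (min_le_right _ _)
    linarith only [this]
  obtain ⟨c₀, hc₀, hpart⟩ := nat_part hC hAd hw0 hwv hk0 hkp hρ hwr hkT hT1 hH1 hH2 hTH hθ
  have c1 := (hk₀' k hk0 hkk₀ 2 (by norm_num)).ev hc₀
  have c2 := (hk₁' k hk0 hkk₁ 2 (by norm_num)).ev hc₀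
  have c3 : Clp S (fun J F A => 0 < Pe F.p A) :=
    Clp.base 1 one_pos 0 fun J _ F A hA =>
      lt_of_lt_of_le (Real.exp_pos _) (hC.st _ _ _ _ hA).2.2.2
  have hl2 : 0 < Real.log 2 := Real.log_pos (by norm_num)
  have hl21 : Real.log 2 ≤ 1 := by linarith only [Real.log_two_lt_d9]
  obtain ⟨KK, hKK⟩ : ∃ KK : ℝ, KK = (3 : ℕ) * Real.log (6 * 5 + 3) +
      (3 : ℕ) * Real.log (6 * 5 + 3) + K1 5 := ⟨_, rfl⟩
  obtain ⟨J₃, hJ₃⟩ := exists_nat_gt ((9 + |KK|) / θ)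
  refine Clp.mono (J₂ := J₃) (((hpart.and c1).and c2).and c3) ?_
  rintro J hJ F A ⟨⟨⟨d1, d2⟩, d3⟩, d4⟩ sg hbij hsg z hz τ κ hκ
  have hJr : (9 + |KK|) / θ < J := hJ₃.trans_le (by exact_mod_cast hJ)
  have hJθ : 9 + |KK| < J * θ := by rwa [div_lt_iff₀ hθ] at hJr
  have hJ0 : (0 : ℝ) ≤ J := Nat.cast_nonneg J
  have hlawA := isLaw_cond F.isLaw d4
  obtain ⟨rr, hrr⟩ : ∃ rr, rr = ⌊((w : ℝ) + q) * J⌋₊ := ⟨_, rfl⟩
  obtain ⟨UU, hUU⟩ : ∃ UU, UU = ⌊((w : ℝ) + (σ 1).rot w + q) * J⌋₊ := ⟨_, rfl⟩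
  obtain ⟨NN, hNN⟩ : ∃ NN, NN = ⌊N * J⌋₊ := ⟨_, rfl⟩
  rw [← hrr, ← hUU, ← hNN]
  obtain ⟨E, hE⟩ : ∃ E, E = |h| + |h'| + 3 * (N - p) + 2 * (q' - q) + ρ + θ := ⟨_, rfl⟩
  obtain ⟨cap, hcap⟩ : ∃ cap : ℝ, cap = (((NN : ℝ) - rr) + ((NN : ℝ) - UU)) * Real.log 2 :=
    ⟨_, rfl⟩
  have hNNJ : (NN : ℝ) ≤ J := by
    have h1 : N * J ≤ 1 * J := mul_le_mul_of_nonneg_right hN1 hJ0
    have h2 : NN ≤ J := by
      rw [hNN]
      have := Nat.floor_le_floor h1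
      rwa [one_mul, Nat.floor_natCast] at this
    exact_mod_cast h2
  have hcapJ : cap ≤ 2 * J := by
    have h1 : (0 : ℝ) ≤ rr := Nat.cast_nonneg _
    have h2 : (0 : ℝ) ≤ UU := Nat.cast_nonneg _
    have h3 : cap ≤ 2 * J * Real.log 2 := by
      rw [hcap]
      exact mul_le_mul_of_nonneg_right (by linarith only [hNNJ]) hl2.le
    have h4 : 2 * (J : ℝ) * Real.log 2 ≤ 2 * J * 1 :=
      mul_le_mul_of_nonneg_left hl21 (by positivity)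
    linarith only [h3, h4]
  have hE0 : 0 ≤ E := by
    rw [hE]
    have := abs_nonneg h
    have := abs_nonneg h'
    linarith
  -- the bound on the parts
  have key : ∀ G : F.Ω → Prop, Sub G A → θ * Pe F.p A ≤ Pe F.p G → ∃ B : F.Ω → Prop, Sub B G ∧
      0 < Pe F.p B ∧ cap - E * J ≤ CH (Pool.Agent.H49.Ent.cond F.p B True) (F.X NN)
        (fun ω => (F.sbx sg rr UU NN (fra z) (frs z) (frt z) ω, (κ ω, (z ω, F.W ω)))) := by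
    intro G hG hPG
    obtain ⟨B, hB, hPB, y, al, hy, hal, hza, hN⟩ := d1 G hG hPG sg hbij.1 hsg z (nl_sub hz hG)
    have hPB0 : 0 < Pe F.p B := lt_of_lt_of_le (mul_pos hc₀ d4) hPB
    have hBA : Sub B A := hB.trans hG
    have hlB := isLaw_cond F.isLaw hPB0
    have hmem : ∀ ω, 0 < Pool.Agent.H49.Ent.cond F.p B True ω → B ω := fun ω hω => by
      have := ((cond_pos_iff F.isLaw.nonneg B True ω).1 hω).2
      simpa using this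
    have hBne : ∃ ω, B ω := by
      by_contra hcon
      push Not at hcon
      have : Pe F.p B = 0 := by
        rw [Pe_eq]
        exact Finset.sum_eq_zero fun ω _ => if_neg (hcon ω)
      linarith only [hPB0, this]
    have hκB : SL F B ⌊(w : ℝ) * J⌋₊ κ := ⟨fun ω ω' h1 h2 => hκ.vis ω ω' (hBA _ h1) (hBA _ h2),
      fun ω ω' h1 h2 => hκ.con ω ω' (hBA _ h1) (hBA _ h2)⟩
    have hPk := pkl_cmb hbij.1 hκB (nl_sub hz hBA) hy hBne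
    have e1 := d2 B hBA hPB sg hbij.1 hsg _ _ _ al hPk hN hal
    have e2 := d3 B hBA hPB sg hbij.1 hsg _ _ _ al hPk hN hal
    refine ⟨B, hB, hPB0, ?_⟩
    obtain ⟨l1, l2, l3, l4, l5, l6⟩ := nat_levels (w := (w : ℝ)) (q := q) (q' := q') (p := p)
      (N := N) (rt := (σ 1).rot w) (k := k) (ρ := ρ) (J := J) hw0r hq hqq hrot0 hk0.le hpN
    have hzb : ∀ ω, 0 < Pool.Agent.H49.Ent.cond F.p B True ω → |frs z ω| ≤ 4 ∧ |frt z ω| ≤ 4 := by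
      intro ω hω
      have := hz.inc ω (hBA _ (hmem ω hω))
      unfold frs frt
      rw [abs_neg, abs_neg]
      exact ⟨this.s_le, this.c_le⟩
    have e3 := vd_conv (F := F) (P := Pool.Agent.H49.Ent.cond F.p B True) hlB (ς := sg)
      (fun ω => (κ ω, (z ω, F.W ω)))
      (fun ω => (Uni.dg (ld (σ 1) p q' k w J) al ω, ((κ ω, z ω, y ω), F.W ω)))
      (fun ω ω' _ _ e => by
        have g1 := (Prod.ext_iff.mp e).2
        have g2 := Prod.ext_iff.mp g1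
        have g3 := Prod.ext_iff.mp g2.1
        have g4 := Prod.ext_iff.mp g3.2
        exact Prod.ext g3.1 (Prod.ext g4.1 g2.2))
      (a := fra z) (al := al) (s := frs z) (t := frt z) (r := rr) (U := UU) (N := NN)
      (r₀ := lr p q' w J) (U₀ := lu (σ 1) p q' k w J) (p₀ := ⌊p * J⌋₊)
      (g := ⌊((σ 1).rot w - ρ - k) * J⌋₊) (e := ⌊(q' - q) * J⌋₊ + 2) (e' := ⌊ρ * J⌋₊ + 1)
      l1 l2 (by rw [hNN]; exact l3) (by rw [hrr]; exact l4) (by rw [hUU]; exact l5) l6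
      (fun ω hω => (hal.bd ω (hmem ω hω)).trans (by norm_num))
      (fun ω hω => (hzb ω hω).1) (fun ω hω => (hzb ω hω).2)
      (fun ω hω => hza ω (hmem ω hω))
      (fun ω ω' _ _ e => by
        have g1 := (Prod.ext_iff.mp e).2
        have g2 := Prod.ext_iff.mp g1
        have g3 := Prod.ext_iff.mp g2.1
        have g4 := (Prod.ext_iff.mp g3.2).1
        have g5 : z ω = z ω' := g4
        simp only [fra, frs, frt, g5])
      (fun ω ω' _ _ e => by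
        have g0 : Uni.dg (ld (σ 1) p q' k w J) al ω = Uni.dg (ld (σ 1) p q' k w J) al ω' :=
          (Prod.ext_iff.mp e).1
        have g1 := (Prod.ext_iff.mp e).2
        have g2 := Prod.ext_iff.mp g1
        have g3 := Prod.ext_iff.mp g2.1
        have g4 := (Prod.ext_iff.mp g3.2).1
        have g5 : z ω = z ω' := g4
        have g6 : ald (lu (σ 1) p q' k w J - lr p q' w J) al ω =
            ald (lu (σ 1) p q' k w J - lr p q' w J) al ω' := by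
          unfold ald
          unfold ld at g0
          rw [g0]
        simp only [frs, frt, g5, g6])
    have e4 : F.vdf (Pool.Agent.H49.Ent.cond F.p B True) sg (lr p q' w J)
        (lu (σ 1) p q' k w J) ⌊p * J⌋₊ (ald (lu (σ 1) p q' k w J - lr p q' w J) al) (frs z) (frt z)
        (fun ω => (Uni.dg (ld (σ 1) p q' k w J) al ω, ((κ ω, z ω, y ω), F.W ω))) =
        Vd F B sg (σ 1) p q' k (fun ω => (κ ω, z ω, y ω))
          (fun u : τ × Pln × Pln => cmb (sg 0) (sg 1) (sg 2) u.2.1 u.2.2) al w := rfl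
    rw [e4, ← hKK] at e3
    have e5 : F.vdf (Pool.Agent.H49.Ent.cond F.p B True) sg rr UU NN (fra z) (frs z) (frt z)
        (fun ω => (κ ω, (z ω, F.W ω))) = cap - CH (Pool.Agent.H49.Ent.cond F.p B True) (F.X NN)
        (fun ω => (F.sbx sg rr UU NN (fra z) (frs z) (frt z) ω, (κ ω, (z ω, F.W ω)))) := by
      rw [hcap]
      rfl
    rw [e5] at e3
    have m1 : h * J * Real.log 2 ≤ |h| * J := by
      have a1 : h * J * Real.log 2 ≤ |h| * J * Real.log 2 :=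
        mul_le_mul_of_nonneg_right (mul_le_mul_of_nonneg_right (le_abs_self h) hJ0) hl2.le
      have a2 : |h| * J * Real.log 2 ≤ |h| * J * 1 :=
        mul_le_mul_of_nonneg_left hl21 (by positivity)
      linarith only [a1, a2]
    have m2 : h' * J ≤ |h'| * J := mul_le_mul_of_nonneg_right (le_abs_self h') hJ0
    have m3 : (3 * ((NN : ℝ) - ⌊p * J⌋₊) + 2 * ((⌊(q' - q) * J⌋₊ + 2 : ℕ) : ℝ) +
        ((⌊ρ * J⌋₊ + 1 : ℕ) : ℝ)) * Real.log 2 ≤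
        3 * (N - p) * J + 2 * (q' - q) * J + ρ * J + 8 := by
      have b1 : (⌊(q' - q) * J⌋₊ : ℝ) ≤ (q' - q) * J :=
        Nat.floor_le (mul_nonneg (by linarith only [hqq]) hJ0)
      have b2 : (⌊ρ * J⌋₊ : ℝ) ≤ ρ * J := Nat.floor_le (mul_nonneg hρ hJ0)
      have b3 : p * J < ⌊p * J⌋₊ + 1 := Nat.lt_floor_add_one _
      have b4 : (⌊p * J⌋₊ : ℝ) ≤ NN := by
        rw [hNN]
        exact_mod_cast l3
      have b5 : (NN : ℝ) ≤ N * J ∨ (NN : ℝ) = 0 := by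
        rw [hNN]
        rcases le_or_gt 0 (N * J) with hh | hh
        · exact Or.inl (Nat.floor_le hh)
        · right
          rw [Nat.floor_of_nonpos hh.le]
          exact Nat.cast_zero
      have b6 : (NN : ℝ) - ⌊p * J⌋₊ ≤ (N - p) * J + 1 := by
        rcases b5 with b5 | b5
        · nlinarith only [b3, b5]
        · have : (0 : ℝ) ≤ ⌊p * J⌋₊ := Nat.cast_nonneg _
          have : 0 ≤ (N - p) * J := mul_nonneg (by linarith only [hpN]) hJ0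
          linarith only [b5, this]
      have b7 : (3 * ((NN : ℝ) - ⌊p * J⌋₊) + 2 * ((⌊(q' - q) * J⌋₊ + 2 : ℕ) : ℝ) +
        ((⌊ρ * J⌋₊ + 1 : ℕ) : ℝ)) ≤ 3 * (N - p) * J + 2 * (q' - q) * J + ρ * J + 8 := by
        push_cast
        linarith only [b1, b2, b6]
      have b8 : 0 ≤ (3 * ((NN : ℝ) - ⌊p * J⌋₊) + 2 * ((⌊(q' - q) * J⌋₊ + 2 : ℕ) : ℝ) +
        ((⌊ρ * J⌋₊ + 1 : ℕ) : ℝ)) := by
        have c1 : (0 : ℝ) ≤ ((⌊(q' - q) * J⌋₊ + 2 : ℕ) : ℝ) := Nat.cast_nonneg _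
        have c2 : (0 : ℝ) ≤ ((⌊ρ * J⌋₊ + 1 : ℕ) : ℝ) := Nat.cast_nonneg _
        linarith only [b4]
      have b9 := mul_le_mul_of_nonneg_left hl21 b8
      linarith only [b7, b9]
    have m4 : KK ≤ |KK| := le_abs_self KK
    rw [hE]
    nlinarith only [hJθ, e1, e2, e3, m1, m2, m3, m4]
  -- all of `A`
  rcases le_or_gt 0 (cap - E * J) with hL | hL
  · have k1 := Pool.S6C.Uvp.exh F.isLaw d4 hθ hL (F.X NN)
      (fun ω => (F.sbx sg rr UU NN (fra z) (frs z) (frt z) ω, (κ ω, (z ω, F.W ω)))) key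
    have e5 : F.vdf (Pool.Agent.H49.Ent.cond F.p A True) sg rr UU NN (fra z) (frs z) (frt z)
        (fun ω => (κ ω, (z ω, F.W ω))) = cap - CH (Pool.Agent.H49.Ent.cond F.p A True) (F.X NN)
        (fun ω => (F.sbx sg rr UU NN (fra z) (frs z) (frt z) ω, (κ ω, (z ω, F.W ω)))) := by
      rw [hcap]
      rfl
    rw [e5]
    have k2 : θ * (cap - E * J) ≤ θ * (2 * J) := by
      refine mul_le_mul_of_nonneg_left ?_ hθ.le
      have : 0 ≤ E * J := mul_nonneg hE0 hJ0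
      linarith only [hcapJ, this]
    rw [hE] at k1 k2
    nlinarith only [k1, k2]
  · have k1 := vdf_le (F := F) (σ := sg) (a := fra z) (s := frs z) (t := frt z) (r := rr)
      (U := UU) (N := NN) hlawA (fun ω => (κ ω, (z ω, F.W ω)))
    rw [← hcap] at k1
    rw [hE] at hL
    have : 0 ≤ θ * J := mul_nonneg hθ.le hJ0
    nlinarith only [hL, k1, this]

end Pool.S6V
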