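import Pool.Agent.H33.S6.NatE
import Pool.Agent.H33.S6.NatA
import Pool.Agent.H80.S6C.Uvc

/-!
# Natural boxes are full
-/

set_option autoImplicit false

namespace Pool.S6V

open Finset Real
open Pool.Agent.H49.Ent Pool.Agent.H32.Dense Pool.STK Pool.KA Pool.KSAT Pool.K2S Pool.PB Pool.KS6
  Pool.S6C Pool.S6U Pool.KA.Vd Pool.Sel51

/-- If few rows are left, the deficit is small. -/
theorem vsmall_triv {S : PCl 3} {a R h₁ : ℝ} {i₀ : Fin 3} {c s₂ : ℝ} {r : ℝ → ℝ} {D : Set ℝ}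
    {σ : ℝ → Row} (hC : Cs S a R h₁ i₀ c s₂ r D σ) {T p : ℝ} {v : ℚ} {q H : ℝ} {x : ℚ} {e : ℝ}
    (he : 0 < e) (hxp : p - q - x ≤ e) (hx0 : 0 ≤ x) :
    VSmall S i₀ (σ 1) T p v q H x (3 * e) := by
  refine ⟨1, one_pos, fun k _ _ C _ => ?_⟩
  obtain ⟨J₃, hJ₃⟩ := exists_nat_gt (4 / e)
  refine Clp.of one_pos J₃ fun J hJ F A hA ς _ _ Λ κ pl al _ _ _ => ?_
  have hPA : 0 < Pe F.p A := lt_of_lt_of_le (Real.exp_pos _) (hC.st _ _ _ _ hA).2.2.2
  have hJr : 4 / e < J := hJ₃.trans_le (by exact_mod_cast hJ)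
  have hJe : 4 < J * e := by rwa [div_lt_iff₀ he] at hJr
  have hJ0 : (0 : ℝ) ≤ J := Nat.cast_nonneg J
  have hl2 : 0 < Real.log 2 := Real.log_pos (by norm_num)
  have hl21 : Real.log 2 ≤ 1 := by linarith only [Real.log_two_lt_d9]
  have hx0r : (0 : ℝ) ≤ x := by exact_mod_cast hx0
  have h1 := vdf_le (F := F) (σ := ς) (a := ald (ld (σ 1) p q k x J) al)
    (s := fun ω => -(pl (κ ω)).s) (t := fun ω => -(pl (κ ω)).c) (r := lr p q x J)
    (U := lu (σ 1) p q k x J) (N := ⌊p * J⌋₊) (isLaw_cond F.isLaw hPA)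
    (fun ω => (Uni.dg (ld (σ 1) p q k x J) al ω, (κ ω, F.W ω)))
  have h2 : Vd F A ς (σ 1) p q k κ pl al x ≤ (((⌊p * J⌋₊ : ℝ) - lr p q x J) +
      ((⌊p * J⌋₊ : ℝ) - lu (σ 1) p q k x J)) * Real.log 2 := h1
  have h3 : lr p q x J ≤ lu (σ 1) p q k x J := by unfold lr lu; omega
  have h3r : (lr p q x J : ℝ) ≤ lu (σ 1) p q k x J := by exact_mod_cast h3
  have h4 : (⌊p * J⌋₊ : ℝ) - lr p q x J ≤ e * J + 2 := by
    unfold lr
    rw [Nat.cast_min]
    push_cast
    have f1 : (x : ℝ) * J < ⌊(x : ℝ) * J⌋₊ + 1 := Nat.lt_floor_add_one _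
    have f2 : q * J < ⌊q * J⌋₊ + 1 := Nat.lt_floor_add_one _
    have f3 : (⌊p * J⌋₊ : ℝ) ≤ max (p * J) 0 := by
      rcases le_or_gt 0 (p * J) with hh | hh
      · exact (Nat.floor_le hh).trans (le_max_left _ _)
      · rw [Nat.floor_of_nonpos hh.le, Nat.cast_zero]
        exact le_max_right _ _
    rcases min_cases ((⌊(x : ℝ) * J⌋₊ : ℝ) + ⌊q * J⌋₊) (⌊p * J⌋₊ : ℝ) with ⟨e1, e2⟩ | ⟨e1, e2⟩
    · rw [e1]
      have m1 : (p - q - x) * J ≤ e * J := mul_le_mul_of_nonneg_right hxp hJ0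
      rcases max_cases (p * J) 0 with ⟨g1, g2⟩ | ⟨g1, g2⟩
      · rw [g1] at f3
        nlinarith only [f1, f2, f3, m1]
      · rw [g1] at f3
        have : (0 : ℝ) ≤ ⌊(x : ℝ) * J⌋₊ := Nat.cast_nonneg _
        have : (0 : ℝ) ≤ ⌊q * J⌋₊ := Nat.cast_nonneg _
        have : 0 ≤ e * J := mul_nonneg he.le hJ0
        linarith only [hJe, f3]
    · rw [e1, sub_self]
      have : 0 ≤ e * J := mul_nonneg he.le hJ0
      linarith only [hJe]
  have h5 : ((⌊p * J⌋₊ : ℝ) - lr p q x J) + ((⌊p * J⌋₊ : ℝ) - lu (σ 1) p q k x J) ≤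
      2 * (e * J + 2) := by linarith only [h3r, h4]
  have h6 : (((⌊p * J⌋₊ : ℝ) - lr p q x J) +
      ((⌊p * J⌋₊ : ℝ) - lu (σ 1) p q k x J)) * Real.log 2 ≤ 2 * (e * J + 2) := by
    have a1 := mul_le_mul_of_nonneg_right h5 hl2.le
    have a2 : 2 * (e * J + 2) * Real.log 2 ≤ 2 * (e * J + 2) * 1 :=
      mul_le_mul_of_nonneg_left hl21 (by
        have : 0 ≤ e * J := mul_nonneg he.le hJ0
        linarith only [hJe])
    linarith only [a1, a2]
  linarith only [hJe, h2, h6]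

/-- If few rows are left beyond the first coordinate of the natural box, the claim is trivial. -/
theorem nat_triv {S : PCl 3} {a R h₁ : ℝ} {i₀ : Fin 3} {c s₂ : ℝ} {r : ℝ → ℝ} {D : Set ℝ}
    {σ : ℝ → Row} (hC : Cs S a R h₁ i₀ c s₂ r D σ) {w : ℚ} {q N e : ℝ} (he : 0 < e)
    (hN : N - w - q ≤ e) (hw0 : 0 ≤ w) (hrt : 0 ≤ (σ 1).rot w) :
    Clp S (fun J F A => ∀ (sg : Fin 3 → Fin 3) (z : F.Ω → Pln) (τ : Type) (κ : F.Ω → τ),
        F.vdf (Pool.Agent.H49.Ent.cond F.p A True) sg ⌊((w : ℝ) + q) * J⌋₊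
          ⌊((w : ℝ) + (σ 1).rot w + q) * J⌋₊ ⌊N * J⌋₊ (fra z) (frs z) (frt z)
          (fun ω => (κ ω, (z ω, F.W ω))) ≤ 3 * e * J) := by
  obtain ⟨J₃, hJ₃⟩ := exists_nat_gt (2 / e)
  refine Clp.of one_pos J₃ fun J hJ F A hA sg z τ κ => ?_
  have hPA : 0 < Pe F.p A := lt_of_lt_of_le (Real.exp_pos _) (hC.st _ _ _ _ hA).2.2.2
  have hJr : 2 / e < J := hJ₃.trans_le (by exact_mod_cast hJ)
  have hJe : 2 < J * e := by rwa [div_lt_iff₀ he] at hJr
  have hJ0 : (0 : ℝ) ≤ J := Nat.cast_nonneg J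
  have hl2 : 0 < Real.log 2 := Real.log_pos (by norm_num)
  have hl21 : Real.log 2 ≤ 1 := by linarith only [Real.log_two_lt_d9]
  have hw0r : (0 : ℝ) ≤ w := by exact_mod_cast hw0
  have h1 := vdf_le (F := F) (σ := sg) (a := fra z) (s := frs z) (t := frt z)
    (r := ⌊((w : ℝ) + q) * J⌋₊) (U := ⌊((w : ℝ) + (σ 1).rot w + q) * J⌋₊) (N := ⌊N * J⌋₊)
    (isLaw_cond F.isLaw hPA) (fun ω => (κ ω, (z ω, F.W ω)))
  refine h1.trans ?_
  have f1 : ((w : ℝ) + q) * J < ⌊((w : ℝ) + q) * J⌋₊ + 1 := Nat.lt_floor_add_one _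
  have f2 : ⌊((w : ℝ) + q) * J⌋₊ ≤ ⌊((w : ℝ) + (σ 1).rot w + q) * J⌋₊ :=
    Nat.floor_le_floor (mul_le_mul_of_nonneg_right (by linarith only [hrt]) hJ0)
  have f2r : (⌊((w : ℝ) + q) * J⌋₊ : ℝ) ≤ ⌊((w : ℝ) + (σ 1).rot w + q) * J⌋₊ := by
    exact_mod_cast f2
  have f3 : (⌊N * J⌋₊ : ℝ) ≤ max (N * J) 0 := by
    rcases le_or_gt 0 (N * J) with hh | hh
    · exact (Nat.floor_le hh).trans (le_max_left _ _)
    · rw [Nat.floor_of_nonpos hh.le, Nat.cast_zero]
      exact le_max_right _ _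
  have f4 : (⌊N * J⌋₊ : ℝ) - ⌊((w : ℝ) + q) * J⌋₊ ≤ e * J + 1 := by
    have m1 : (N - w - q) * J ≤ e * J := mul_le_mul_of_nonneg_right hN hJ0
    have m2 : 0 ≤ e * J := mul_nonneg he.le hJ0
    have m3 : (0 : ℝ) ≤ ⌊((w : ℝ) + q) * J⌋₊ := Nat.cast_nonneg _
    rcases max_cases (N * J) 0 with ⟨g1, g2⟩ | ⟨g1, g2⟩
    · rw [g1] at f3
      nlinarith only [f1, f3, m1]
    · rw [g1] at f3
      linarith only [hJe, f3]
  have h5 : (((⌊N * J⌋₊ : ℝ) - ⌊((w : ℝ) + q) * J⌋₊) +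
      ((⌊N * J⌋₊ : ℝ) - ⌊((w : ℝ) + (σ 1).rot w + q) * J⌋₊)) ≤ 2 * (e * J + 1) := by linarith only [f2r, f4]
  have a1 := mul_le_mul_of_nonneg_right h5 hl2.le
  have a2 : 2 * (e * J + 1) * Real.log 2 ≤ 2 * (e * J + 1) * 1 :=
    mul_le_mul_of_nonneg_left hl21 (by
      have : 0 ≤ e * J := mul_nonneg he.le hJ0
      linarith only [hJe])
  linarith only [hJe, a1, a2]

/-- **(NAT)** Natural boxes are full. -/
theorem nat_of (hNS : NSumStmt) (hST : NStartStmt) : NATStmt := by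
  classical
  intro S a R h₁ i₀ c s₂ r D σ hC act K W v₁ t e₁ Q₀ P g v₀ v ρ a₀ α hL ε hε
  have hR1 := hC.row 1 one_pos le_rfl hC.D1
  obtain ⟨κa, hact⟩ := actD_of_num hC hL.actN
  -- the numbers of the local data
  have hPR := hL.pr P hL.row
  have hAd := hL.adm
  have he1 := hAd.e0
  have he8 := hAd.e8
  have hPg : 0 < P - g := by linarith only [hL, hL.gP]
  have hgW : W g < v₁ := hAd.ab g hL.thk
  obtain ⟨w₁, hw1a, hw1b, -, hw1d⟩ := hL.beta
  have hmgP := hL.mono g hL.thk P hL.row hL.gP.le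
  have hρ0 := hL.ρ0
  have hPlt1 := hPR.lt1
  -- the precisions
  obtain ⟨m, hm⟩ : ∃ m, m = 8 + ρ := ⟨_, rfl⟩
  have hm8 : 8 ≤ m := by rw [hm]; linarith only [hρ0]
  obtain ⟨ε₀, hε₀⟩ : ∃ ε₀, ε₀ = min ε 1 / 64 := ⟨_, rfl⟩
  have hε₀0 : 0 < ε₀ := by
    rw [hε₀]
    have := lt_min hε one_pos
    linarith only [this]
  have hε₀ε : ε₀ ≤ ε / 64 := by
    rw [hε₀]
    have := min_le_left ε 1
    linarith only [this]
  have hε₀1 : ε₀ ≤ 1 / 64 := by
    rw [hε₀]
    have := min_le_right ε 1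
    linarith only [this]
  exact by
   obtain ⟨η₀, hη₀⟩ : ∃ η₀, η₀ = min (((σ 1).sN v₁ t - (P - W g)) / 2) e₁ := ⟨_, rfl⟩
   have hgam := hL.gam
   have hη₀0 : 0 < η₀ := by
     rw [hη₀]
     exact lt_min (by linarith only [hgam]) he1
   have hη₀1 : η₀ ≤ ((σ 1).sN v₁ t - (P - W g)) / 2 := by rw [hη₀]; exact min_le_left _ _
   have hη₀2 : η₀ ≤ e₁ := by rw [hη₀]; exact min_le_right _ _
   obtain ⟨δt, hδt, hth⟩ := hL.th 1 one_pos
   obtain ⟨Xa, hXa, hnear⟩ := act_near hL.amono hL.alip hPg (by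
     have h1 := hL.w0
     have h2 : g ≤ P := hL.gP.le
     have h3 := (hL.pr g hL.thk).half
     linarith only [hPlt1, hε₀0, hε₀1, h3]) hL.α0 hL.aslp hε₀0
   obtain ⟨δd, hδd, hdn⟩ := hL.dP (1 / 2) (by norm_num)
   -- a common bound
   obtain ⟨B, hB⟩ : ∃ B : ℝ, B = min (min (min (P - g) η₀) (min (W g) (v₁ - W g)))
       (min (min (w₁ - W P) ((σ 1).pi - ((σ 1).rot w₁ + (P - g)))) (min (1 - P) (min δt δd))) :=
     ⟨_, rfl⟩
   have hB0 : 0 < B := by
     rw [hB]
     exact lt_min (lt_min (lt_min hPg hη₀0) (lt_min hL.w0 (by linarith only [hgW])))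
       (lt_min (lt_min (by linarith only [hw1a]) (by linarith only [hw1d])) (lt_min (by linarith only [hPlt1]) (lt_min hδt hδd)))
   have hB1 : B ≤ P - g := by
     rw [hB]; exact (min_le_left _ _).trans ((min_le_left _ _).trans (min_le_left _ _))
   have hB2 : B ≤ η₀ := by
     rw [hB]; exact (min_le_left _ _).trans ((min_le_left _ _).trans (min_le_right _ _))
   have hB3 : B ≤ W g := by
     rw [hB]; exact (min_le_left _ _).trans ((min_le_right _ _).trans (min_le_left _ _))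
   have hB4 : B ≤ v₁ - W g := by
     rw [hB]; exact (min_le_left _ _).trans ((min_le_right _ _).trans (min_le_right _ _))
   exact by
    have hB5 : B ≤ w₁ - W P := by
      rw [hB]; exact (min_le_right _ _).trans ((min_le_left _ _).trans (min_le_left _ _))
    have hB6 : B ≤ (σ 1).pi - ((σ 1).rot w₁ + (P - g)) := by
      rw [hB]; exact (min_le_right _ _).trans ((min_le_left _ _).trans (min_le_right _ _))
    have hB7 : B ≤ 1 - P := by
      rw [hB]; exact (min_le_right _ _).trans ((min_le_right _ _).trans (min_le_left _ _))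
    have hB8 : B ≤ δt := by
      rw [hB]
      exact (min_le_right _ _).trans ((min_le_right _ _).trans
        ((min_le_right _ _).trans (min_le_left _ _)))
    have hB9 : B ≤ δd := by
      rw [hB]
      exact (min_le_right _ _).trans ((min_le_right _ _).trans
        ((min_le_right _ _).trans (min_le_right _ _)))
    refine ⟨ε₀, min Xa (B / (4 * m)), hε₀0, lt_min hXa (by positivity), ?_⟩
    intro X hX hXX w q N hwX hqX hN1 hN2
    have hXa' : X ≤ Xa := hXX.trans (min_le_left _ _)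
    have hmX : 4 * (m * X) ≤ B := by
      have h1 : X ≤ B / (4 * m) := hXX.trans (min_le_right _ _)
      rw [le_div_iff₀ (by positivity)] at h1
      linarith only [h1]
    have hXm : 8 * X ≤ m * X := mul_le_mul_of_nonneg_right hm8 hX.le
    have hρX : m * X = 8 * X + ρ * X := by rw [hm]; ring
    have hρX0 : 0 ≤ ρ * X := mul_nonneg hρ0 hX.le
    have hεX0 : 0 < ε₀ * X := mul_pos hε₀0 hX
    have hεX1 : 64 * (ε₀ * X) ≤ X := by
      have := mul_le_mul_of_nonneg_right hε₀1 hX.le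
      linarith only [this]
    have hεX2 : 64 * (ε₀ * X) ≤ ε * X := by
      have := mul_le_mul_of_nonneg_right hε₀ε hX.le
      linarith only [this]
    exact by
     have hwX' := abs_le.1 hwX
     have hqX' := abs_le.1 hqX
     have hW0 := hL.w0
     have hw0r : (0 : ℝ) < w := by linarith only [hB3, hmX, hXm, hεX0, hεX1, hwX', hwX'.1]
     have hw0 : 0 < w := by exact_mod_cast hw0r
     have hwvr : (w : ℝ) ≤ v₁ := by linarith only [hB4, hmX, hXm, hεX0, hεX1, hwX', hwX'.2]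
     have hwv : w ≤ v₁ := by exact_mod_cast hwvr
     have hw1 : w ≤ 1 := hwv.trans hAd.v1.le
     have hww₁r : (w : ℝ) < w₁ := by linarith only [hmgP, hB5, hmX, hXm, hεX0, hεX1, hwX', hwX'.2, hmgP.1]
     have hww₁ : w < w₁ := by exact_mod_cast hww₁r
     have hq0 : 0 ≤ q := by linarith only [hB1, hmX, hXm, hεX0, hεX1, hqX', hqX'.1]
     have hrot0 : 0 ≤ (σ 1).rot w := num_nonneg hC.ne (hR1.rot w hw0.le hw1)
     -- the thickness
     have ht := hth w (by linarith only [hB8, hwX, hmX, hXm, hεX0, hεX1])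
     have ht' := abs_le.1 ht
     have htb : |(1 + ρ) * ((w : ℝ) - W g)| ≤ (1 + ρ) * X := by
       rw [abs_mul, abs_of_nonneg (by linarith only [hρ0, hε₀0, hε₀1] : (0 : ℝ) ≤ 1 + ρ)]
       exact mul_le_mul_of_nonneg_left hwX (by linarith only [hρ0, hε₀0, hε₀1])
     have htb' := abs_le.1 htb
     have hth1 : (σ 1).th w ≤ g + (2 * X + ρ * X) := by
       have e1 : (1 + ρ) * X = X + ρ * X := by ring
       rw [e1] at htb'
       linarith only [hwX, ht', htb', ht'.2, htb'.2]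
     have hth2 : g - (2 * X + ρ * X) ≤ (σ 1).th w := by
       have e1 : (1 + ρ) * X = X + ρ * X := by ring
       rw [e1] at htb'
       linarith only [hwX, ht', htb', ht'.1, htb'.1]
     -- the trivial case
     rcases le_or_gt N ((w : ℝ) + q + ε * X / 8) with hcase | hcase
     · refine Clp.mono (J₂ := 0) (nat_triv hC (w := w) (q := q) (N := N) (e := ε * X / 8)
         (by positivity) (by linarith only [hcase]) hw0.le hrot0) ?_
       intro J _ F A hA sg _ _ z _ τ κ _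
       refine (hA sg z τ κ).trans ?_
       have : 0 ≤ ε * X * (J : ℝ) := by positivity
       linarith only [this]
     -- the parameters
     exact by
      obtain ⟨q', a₀', α', hq1, hq2, hAP⟩ := hnear X hX hXa' q hqX
      obtain ⟨T, hT⟩ : ∃ T, T = (σ 1).th w - ε₀ * X := ⟨_, rfl⟩
      obtain ⟨p, hp⟩ : ∃ p, p = N - ε₀ * X := ⟨_, rfl⟩
      obtain ⟨H, hH⟩ : ∃ H, H = P - W g + η₀ := ⟨_, rfl⟩
      have hNP : N ≤ P + (3 * X + ρ * X) := by linarith only [hwX, hN1, hqX', ht', htb', hqX'.2]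
      have hε8 : 8 * (ε₀ * X) ≤ ε * X / 8 := by linarith only [hεX2]
      have hTw : (w : ℝ) + 6 * (ε₀ * X) < T := by
        rw [hT]
        linarith only [hN1, hεX2, hcase, hq1, hq2]
      have hvel := hL.vel
      have hsmall := hL.small
      have hTH : T - w ≤ H := by
        rw [hT, hH]
        linarith only [hB1, hB2, hwX, hmX, hXm, hρX, hεX1, hwX', ht', htb', hq1, hq2, hwX'.1]
      have hPV : PV (σ 1) T p w q' H := by
        refine ⟨?_, ?_, ?_, hw0, by linarith only [hB1, hmX, hXm, hεX1, hqX', hq1, hq2], ?_, ?_, ?_, hTH⟩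
        · rw [hp]; linarith only [hB1, hB3, hmX, hXm, hεX1, hεX2, hwX', hqX', hcase, hq1, hq2]
        · rw [hp]; linarith only [hB7, hwX, hN1, hmX, hXm, hρX, hεX1, hqX', ht', htb', hq1, hq2]
        · linarith only [hB3, hN1, hmX, hXm, hεX1, hεX2, hwX', hcase, hq1, hq2, hT]
        · have h1 := rot_window hC.ne hR1 hw0.le hwv hAd.v1.le
          linarith only [he8, hB1, hmX, hXm, hεX1, hq1, hq2, hsmall, h1]
        · rw [hT]; linarith only [hq1, hq2]
        · rw [hp, hT]; linarith only [hN1, hq1]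
      have hpH : p - w < H := by
        rw [hp, hH]
        linarith only [hB2, hwX, hN1, hmX, hXm, hρX, hεX1, hwX', hqX', ht', htb', hq1, hq2, hwX'.1]
      -- a Pliss row above `P`
      obtain ⟨Q, hQK, hQ1, hQ2⟩ := hdn (P + m * X) (P + 2 * (m * X)) (by linarith only [hB9, hmX, hXm, hεX1, hq1, hq2]) (by linarith only [hXm, hεX1, hq1, hq2])
        (by linarith only [hB9, hmX, hXm, hεX1, hq1, hq2]) (by
          rw [show P + m * X - P = m * X by ring, show P + 2 * (m * X) - P = 2 * (m * X) by ring,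
            abs_of_nonneg (by linarith only [hXm, hεX1, hq1, hq2]), abs_of_nonneg (by linarith only [hXm, hεX1, hq1, hq2]),
            max_eq_right (by linarith only [hXm, hεX1, hq1, hq2])]
          linarith only)
      exact by
       have hpQ : p < Q := by
         rw [hp]
         linarith only [hwX, hN1, hρX, hεX1, hqX', ht', htb', hq1, hq2, hQ1]
       have hWQ := hL.mono P hL.row Q hQK (by linarith only [hXm, hεX1, hq1, hq2, hQ1])
       have hWQ1 : W Q < w₁ := by linarith only [hB5, hmX, hXm, hεX1, hq1, hq2, hQ2, hWQ, hWQ.2]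
       obtain ⟨y₁, hy1, hy2⟩ := exists_rat_btwn (show max (W Q) (w : ℝ) < w₁ from
         max_lt hWQ1 hww₁r)
       have hyQ : W Q < y₁ := (le_max_left _ _).trans_lt hy1
       have hywr : (w : ℝ) < y₁ := (le_max_right _ _).trans_lt hy1
       have hyw : w < y₁ := by exact_mod_cast hywr
       have hyw₁ : y₁ ≤ w₁ := by exact_mod_cast hy2.le
       have hw₁1 : w₁ ≤ 1 := by
         have h1 := (hL.pr Q₀ hL.top)
         have h2 : W Q₀ < v₁ := hAd.ab Q₀ hL.top
         have h3 : (v₁ : ℝ) < 1 := by exact_mod_cast hAd.v1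
         have : (w₁ : ℝ) ≤ 1 := by linarith only [hw1b, h2, h3]
         exact_mod_cast this
       have hy0 : 0 ≤ y₁ := hw0.le.trans hyw.le
       have hroty := rot_window hC.ne hR1 hy0 hyw₁ hw₁1
       have hy1' : y₁ ≤ 1 := hyw₁.trans hw₁1
       have hroty0 : 0 ≤ (σ 1).rot y₁ := num_nonneg hC.ne (hR1.rot y₁ hy0 hy1')
       have hroty' : (σ 1).rot y₁ + q' < (σ 1).pi := by linarith only [hB6, hmX, hXm, hεX1, hqX', hq1, hq2, hroty, hqX'.2]
       have hq'0 : 0 ≤ q' := by linarith only [hB1, hmX, hXm, hεX1, hqX', hq1, hq2]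
       -- the window `x₁`
       have hx : ∃ x₁ : ℚ, w < x₁ ∧ x₁ ≤ y₁ ∧ (x₁ : ℝ) + q' < p ∧
           VSmall S i₀ (σ 1) T p w q' H x₁ (3 * (ε₀ * X)) := by
         rcases le_or_gt p ((y₁ : ℝ) + q') with hA | hA
         · -- few rows are left
           obtain ⟨x₁, h1, h2⟩ := exists_rat_btwn (show max (w : ℝ) (p - q' - ε₀ * X) < p - q' from
             max_lt (by rw [hp]; linarith only [hεX2, hcase, hq1, hq2]) (by linarith only [hq1, hq2]))
           have h3 := (le_max_left _ _).trans_lt h1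
           have h4 := (le_max_right _ _).trans_lt h1
           have h5 : (x₁ : ℝ) ≤ y₁ := by linarith only [hA, h2]
           have h6 : w < x₁ := by exact_mod_cast h3
           exact ⟨x₁, h6, by exact_mod_cast h5, by linarith only [h2],
             vsmall_triv hC hεX0 (by linarith only [h4]) (hw0.le.trans h6.le)⟩
         rcases le_or_gt ((y₁ : ℝ) + (σ 1).rot y₁ + q') p with hB' | hB'
         · -- the start
           obtain ⟨x₁, h1, h2, h3⟩ := hST S a R h₁ i₀ c s₂ r D σ hC act κa hact Q (W Q)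
             (hL.pr Q hQK) T p w q' H hPV hpQ y₁ hyQ hyw (by linarith only [hB1, hB6, hmX, hXm, hεX1, hq1, hq2, hroty]) hB' (3 * (ε₀ * X))
             (by linarith only [hq1, hq2])
           have h2r : (x₁ : ℝ) < y₁ := by exact_mod_cast h2
           exact ⟨x₁, h1, h2.le, by linarith only [hA, h2r], h3⟩
         · -- only rows of the first coordinate
           obtain ⟨k₀, hk₀, hk⟩ := Pool.S6C.Uvc.e_full hC (T := T) (p := p) (q := q')
             (s := (y₁ : ℝ) + (σ 1).rot y₁ + q' - p) (v := w) (x := y₁) hPV.p1.le hw0.le hyw hq'0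
             hPV.pT (by linarith only [hB']) (by linarith only) hA.le (h := 3 * (ε₀ * X)) (by linarith only [hq1, hq2])
           refine ⟨y₁, hyw, le_rfl, hA, k₀, hk₀, fun k hk0 hkk C hC1 => ?_⟩
           refine Clp.mono (J₂ := 0) (hk k hk0 hkk C hC1) ?_
           intro J _ F A hA ς h1 h2 Λ κ pl al h3 _ h5
           exact hA ς h1 h2 Λ κ pl al h3 h5
       exact by
        obtain ⟨x₁, hx1, hx2, hx3, hx4⟩ := hx
        have hrotx := rot_window hC.ne hR1 (hw0.le.trans hx1.le) hx2 hy1'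
        have hsum := hNS S a R h₁ i₀ c s₂ r D σ hC act κa hact T p w q' H hPV hpH a₀' α' hAP x₁ hx1
          hx3 (by linarith only [hB6, hmX, hXm, hεX1, hqX', hq1, hq2, hroty, hrotx]) (ε₀ * X) hεX0
        have key := nat_at hC hAd hw0.le hwv (T := T) (H := H) (ρ := ε₀ * X) (θ := ε₀ * X) (p := p)
          (N := N) (q := q) (q' := q') hq0 hq1.le (by rw [hp]; linarith only [hq1, hq2]) (by linarith only [hB7, hwX, hN1, hmX, hXm, hρX, hεX1, hqX', ht', htb', hq1, hq2]) hεX0.le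
          (by linarith only [hB1, hB7, hwX, hN1, hN2, hmX, hXm, hρX, hεX1, ht', htb', hq1, hq2]) (by linarith only [hN1, hεX2, hcase, hq1, hq2, hT]) (by rw [hT]; linarith only [hB1, hwX, hmX, hXm, hρX, hεX1, hwX', ht', htb', hq1, hq2, hvel, hwX'.1]) (by rw [hH]; linarith only [hη₀1, hB2, hmX, hXm, hεX1, hq1, hq2])
          (by rw [hT, hH]; linarith only [he8, hη₀2, hB1, hwX, hmX, hXm, hρX, hεX1, hwX', ht', htb', hq1, hq2, hsmall, hwX'.2]) hTH hεX0 hsum hx4
        refine Clp.mono (J₂ := 0) key ?_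
        intro J _ F A hA sg hsg h0 z hz τ κ hκ
        rw [hT] at hA
        refine (hA sg hsg h0 z hz τ κ hκ).trans ?_
        have hJ0 : (0 : ℝ) ≤ J := Nat.cast_nonneg J
        refine mul_le_mul_of_nonneg_right ?_ hJ0
        rw [abs_of_nonneg hεX0.le, abs_of_nonneg (by linarith only [hq1, hq2] : (0 : ℝ) ≤ 3 * (ε₀ * X)), hp]
        linarith only [hεX2, hq1, hq2]

end Pool.S6V
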