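import Pool.Agent.H33.S6.Zof
import Pool.Agent.H97.S6.Zne

/-!
# The zone of the local data: the rising case
-/

set_option autoImplicit false

namespace Pool.S6N

open Finset Real
open Pool.Agent.H49.Ent Pool.Agent.H32.Dense Pool.STK Pool.KA Pool.KSAT Pool.K2S Pool.PB Pool.KS6
  Pool.S6C Pool.Sel51

/-- A grid of rational numbers. -/
theorem exists_grid {x y l s : ℝ} (hl : 0 < l) (hs : 0 < s) (hxy : y ≤ x) :
    ∃ (N : ℕ) (u : ℕ → ℚ), (∀ j < N, u (j + 1) < u j) ∧
      (∀ j < N, (u j : ℝ) - u (j + 1) ≤ s) ∧ x < u 0 ∧ (u 0 : ℝ) < x + l ∧ y - l < u N ∧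
      (u N : ℝ) < y := by
  obtain ⟨p, p1, p2⟩ := exists_rat_btwn (show x < x + l by linarith only [hl])
  obtain ⟨q, q1, q2⟩ := exists_rat_btwn (show y - l < y by linarith only [p1, p2])
  have hqp : (q : ℝ) < p := by linarith only [hxy, p1, q2]
  obtain ⟨N, hN⟩ := exists_nat_gt (((p : ℝ) - q) / s)
  have hN0 : (0 : ℝ) < N := lt_trans (div_pos (by linarith only [hxy, p1, q2]) hs) hN
  have hNq : (0 : ℚ) < N := by exact_mod_cast hN0
  rw [div_lt_iff₀ hs] at hN
  refine ⟨N, fun j => p - j * ((p - q) / N), ?_, ?_, ?_, ?_, ?_, ?_⟩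
  · intro j _
    have h1 : (0 : ℚ) < (p - q) / N := div_pos (by
      have : q < p := by exact_mod_cast hqp
      linarith only [this]) hNq
    push_cast
    linarith only [h1]
  · intro j _
    push_cast
    have h2 : ((p : ℝ) - q) / N ≤ s := by
      rw [div_le_iff₀ hN0]
      linarith only [hN]
    linarith only [h2]
  · simpa using p1
  · simpa using p2
  · push_cast
    have h3 : (p : ℝ) - N * ((p - q) / N) = q := by field_simp; ring
    rw [h3]
    exact q1
  · push_cast
    have h3 : (p : ℝ) - N * ((p - q) / N) = q := by field_simp; ring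
    rw [h3]
    exact q2

/-- **(ZNE)** -/
theorem zne_thm : ZNEStmt := by
  intro S a R h₁ i₀ c s₂ r D σ hC act K W v₁ t e₁ Q₀ P g v₀ v ρ a₀ α hL hvρ CZ ε hCZ hε
  have hv := hL.v0
  have hρ := hL.ρ0
  obtain ⟨G₀, hG₀, hroom⟩ := hL.room_all hC hvρ.ne
  obtain ⟨r', hr', hder⟩ := hL.rate
  obtain ⟨δ₁, hδ₁, h1⟩ := hL.rot (ε / (CZ + 1)) (by positivity)
  obtain ⟨δ₂, hδ₂, h2⟩ := hL.th (ε / (CZ + 1)) (by positivity)
  obtain ⟨δ₃, hδ₃, h3⟩ := hL.aslp (ε / (CZ + 1)) (by positivity)
  have hev := (hasDerivAt_iff_isLittleO.1 hder).def (c := ε / (2 * CZ)) (by positivity)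
  obtain ⟨δ₄, hδ₄, h4⟩ := Metric.eventually_nhds_iff.1 hev
  obtain ⟨M, hM⟩ : ∃ M : ℝ, M = (CZ + 1) * (2 + v + ρ) + 50 * ε := ⟨_, rfl⟩
  have hM0 : 0 < M := by rw [hM]; positivity
  obtain ⟨l₀, hl₀, hall⟩ := exists_room [δ₁ / (CZ + 1), δ₂ / (CZ + 1), δ₃ / (CZ + 1),
    δ₄ / (CZ + 1), G₀ / M] (by
    intro x hx
    simp only [List.mem_cons, List.not_mem_nil, or_false] at hx
    rcases hx with h | h | h | h | h <;> · rw [h]; positivity)
  simp only [List.mem_cons, List.not_mem_nil, or_false, forall_eq_or_imp, forall_eq] at hall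
  obtain ⟨b1, b2, b3, b4, b5⟩ := hall
  rw [lt_div_iff₀ (by positivity)] at b1 b2 b3 b4 b5
  refine ⟨l₀, hl₀, fun l hl hll => ?_⟩
  have hCl : (CZ + 1) * l ≤ l₀ * (CZ + 1) := by nlinarith only [hll, hCZ]
  have hCZl : CZ * l ≤ (CZ + 1) * l := by nlinarith only [hl]
  have hMl : M * l ≤ G₀ := by nlinarith only [b5, hCl, hvρ, hε, hll, hv, hM, hl₀, hl]
  have hMl' : M * l = 2 * ((CZ + 1) * l) + v * ((CZ + 1) * l) + ρ * ((CZ + 1) * l) +
      50 * (ε * l) := by rw [hM]; ring
  have hCl0 : 0 < (CZ + 1) * l := by positivity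
  have hCZl0 : 0 < CZ * l := by positivity
  have hεl : 0 < ε * l := by positivity
  have hvl : 0 ≤ v * ((CZ + 1) * l) := by positivity
  have hρl : 0 ≤ ρ * ((CZ + 1) * l) := by positivity
  obtain ⟨r1, r2, r3, r4, r5, r6, r7, r8, r9, -, r11, r12⟩ := hroom (M * l) hMl
  have hg0 : 0 < g := by
    have h5 := (hL.pr g hL.thk).half
    linarith only [hl, hMl', hCZl0, hεl, hvl, hρl, r7, r8, h5]
  obtain ⟨N, u, u1, u2, u3, u4, u5, u6⟩ := exists_grid (x := W g + CZ * l) (y := W g - CZ * l)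
    (s := ε * l / (1 + v + ρ)) hl (by positivity) (by linarith only [hCZl0])
  have u4' : (u 0 : ℝ) < W g + (CZ + 1) * l := by linarith only [u4]
  have u5' : W g - (CZ + 1) * l < u N := by linarith only [u5]
  have hsc : ∀ y : ℝ, |y| ≤ (CZ + 1) * l → ε / (CZ + 1) * |y| ≤ ε * l := by
    intro y hy
    calc ε / (CZ + 1) * |y| ≤ ε / (CZ + 1) * ((CZ + 1) * l) :=
          mul_le_mul_of_nonneg_left hy (by positivity)
      _ = ε * l := by field_simp
  refine ⟨N, u, ?_, u3, u4', u5', u6, ?_, ?_, ?_⟩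
  · exact
      { v0 := hv
        ρ0 := hρ
        vρ := hvρ.le
        e0 := hεl
        dec := u1
        stp := fun j hj => by
          have h5 := u2 j hj
          rw [le_div_iff₀ (by positivity)] at h5
          linarith only [h5]
        pos := by
          have : (0 : ℝ) < u N := by linarith only [hMl', hCZl0, hεl, hvl, hρl, r9, u3, u4, u5]
          exact_mod_cast this
        lt1 := by
          have h5 := hL.W1
          have h6 : (v₁ : ℝ) < 1 := by exact_mod_cast hL.adm.v1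
          have : (u 0 : ℝ) < 1 := by linarith only [hMl', hCZl0, hεl, hvl, hρl, r6, u3, u4, h6]
          exact_mod_cast this
        aff := fun q q1 q2 => by
          have q1' : (u N : ℝ) ≤ q := by exact_mod_cast q1
          have q2' : (q : ℝ) ≤ u 0 := by exact_mod_cast q2
          have hq : |(q : ℝ) - W g| ≤ (CZ + 1) * l := by
            rw [abs_le]
            constructor <;> linarith
          have c1 := (h1 q (by linarith only [b1, hCl, hq])).trans (hsc _ hq)
          have c2 := (h2 q (by linarith only [b2, hCl, hq])).trans (hsc _ hq)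
          have hq' := abs_le.1 hq
          have c1' := abs_le.1 c1
          have c2' := abs_le.1 c2
          have m1 : v * ((q : ℝ) - W g) ≤ v * ((CZ + 1) * l) :=
            mul_le_mul_of_nonneg_left hq'.2 hv
          have m2 : (1 + ρ) * ((q : ℝ) - W g) ≤ (1 + ρ) * ((CZ + 1) * l) :=
            mul_le_mul_of_nonneg_left hq'.2 (by linarith only [hvρ, hv, hMl', hCZl0, hεl, hvl, hρl, r7, r8, hg0, u3, u4])
          have m3 : ρ * (-((CZ + 1) * l)) ≤ ρ * ((q : ℝ) - W g) :=
            mul_le_mul_of_nonneg_left hq'.1 hρ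
          have hgP := hL.gP
          refine ⟨c1, c2, by linarith only [hMl', hCZl0, hεl, hvl, hρl, r1, r8, u3, u4, c1', m1], ?_, ?_⟩
          · have m4 : (1 + ρ) * ((CZ + 1) * l) = (CZ + 1) * l + ρ * ((CZ + 1) * l) := by ring
            linarith only [hMl', hCZl0, hεl, hvl, hρl, r7, r8, u3, u4, c2', m2]
          · linarith only [hMl', hCZl0, hεl, r11, u3, u4, m1, m3] }
  · intro q hq
    have hq' := abs_le.1 hq
    have h0 : (0 : ℝ) ≤ q := by linarith only [hMl', hCZl0, hεl, hvl, hρl, r8, u3, u4, hq']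
    have h1' : (q : ℝ) ≤ 1 := by linarith only [hMl', hCZl0, hεl, hvl, hρl, r7, hg0, u3, u4, hq']
    exact ⟨by exact_mod_cast h0, by exact_mod_cast h1',
      (h3 q (by linarith only [b3, hCl, u3, u4, hq])).trans (hsc _ (by linarith only [u3, u4, hq]))⟩
  · intro P' P'' h12 hP' hP''
    have g1 := abs_le.1 hP'
    have g2 := abs_le.1 hP''
    have k1 := h4 (y := P') (by rw [Real.dist_eq]; linarith only [b4, hCl, u3, u4, hP'])
    have k2 := h4 (y := P'') (by rw [Real.dist_eq]; linarith only [b4, hCl, u3, u4, hP''])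
    rw [Real.norm_eq_abs, Real.norm_eq_abs, smul_eq_mul] at k1 k2
    have e1 : ε / (2 * CZ) * |P' - P| ≤ ε * l / 2 := by
      calc ε / (2 * CZ) * |P' - P| ≤ ε / (2 * CZ) * (CZ * l) :=
            mul_le_mul_of_nonneg_left hP' (by positivity)
        _ = ε * l / 2 := by field_simp
    have e2 : ε / (2 * CZ) * |P'' - P| ≤ ε * l / 2 := by
      calc ε / (2 * CZ) * |P'' - P| ≤ ε / (2 * CZ) * (CZ * l) :=
            mul_le_mul_of_nonneg_left hP'' (by positivity)
        _ = ε * l / 2 := by field_simp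
    have k1' := abs_le.1 (k1.trans e1)
    have k2' := abs_le.1 (k2.trans e2)
    have k3 : r' * (P'' - P') ≤ (3 - c) * (P'' - P') :=
      mul_le_mul_of_nonneg_right hr' (by linarith only [h12])
    refine ⟨by linarith only [hMl', hCZl0, hεl, hvl, hρl, r8, hg0, u3, u4, g1], by linarith only [hMl', hCZl0, hεl, hvl, hρl, r7, u3, u4, g2], ?_⟩
    nlinarith only [k1', k2', k3, k1'.1, k2'.2]
  · refine ⟨by linarith only [hMl', hCZl0, hεl, hvl, hρl, r1, u3, u4], by linarith only [hMl', hCZl0, hεl, hvl, hρl, r7, r9, r11, u3, u4], by linarith only [hMl', hCZl0, hεl, hvl, hρl, r3, u3, u4], by linarith only [hMl', hCZl0, hεl, hvl, hρl, r4, u3, u4], by linarith only [hMl', hCZl0, hεl, hvl, hρl, r5, u3, u4], by linarith only [hMl', hCZl0, hεl, hvl, hρl, r6, u3, u4],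
      by linarith only [hMl', hCZl0, hεl, hvl, hρl, r7, u3, u4], by linarith only [hMl', hCZl0, hεl, hvl, hρl, r8, u3, u4], by linarith only [hMl', hCZl0, hεl, hvl, hρl, r9, u3, u4], by linarith only [hMl', hCZl0, hεl, hvl, hρl, r11, u3, u4], by linarith only [hMl', hCZl0, hεl, hvl, hρl, r7, r8, r9, r11, u3, u4]⟩

end Pool.S6N
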